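import Mathlib

/-!
The Euclidean unit ball of `ℝ^{k+1}` sliced by lines parallel to the first coordinate axis, and the
resulting lower bound for the mean derivative of a bilipschitz map.
-/

set_option autoImplicit false

open Set Filter Topology Metric MeasureTheory

namespace Pool.Agent.SAV

/-- The open Euclidean unit ball of `ℝ^k`. -/
def eball (k : ℕ) : Set (Fin k → ℝ) := {x | ∑ i, x i ^ 2 < 1}

theorem isOpen_eball (k : ℕ) : IsOpen (eball k) := by
  unfold eball
  exact isOpen_lt (by fun_prop) continuous_const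

theorem isCompact_cball (k : ℕ) : IsCompact {x : Fin k → ℝ | ∑ i, x i ^ 2 ≤ 1} := by
  refine Metric.isCompact_of_isClosed_isBounded ?_ ?_
  · exact isClosed_le (by fun_prop) continuous_const
  · rw [isBounded_iff_forall_norm_le]
    refine ⟨1, fun x hx => ?_⟩
    rw [pi_norm_le_iff_of_nonneg one_pos.le]
    intro i
    have h1 : x i ^ 2 ≤ ∑ j, x j ^ 2 :=
      Finset.single_le_sum (f := fun j => x j ^ 2) (fun j _ => sq_nonneg (x j)) (Finset.mem_univ i)
    have h2 : x i ^ 2 ≤ 1 := h1.trans hx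
    rw [Real.norm_eq_abs]
    exact abs_le_one_iff_mul_self_le_one.mpr (by nlinarith)

theorem eball_subset_cball (k : ℕ) : eball k ⊆ {x : Fin k → ℝ | ∑ i, x i ^ 2 ≤ 1} :=
  fun x hx => le_of_lt (show ∑ i, x i ^ 2 < 1 from hx)

theorem integrableOn_eball {k : ℕ} {g : (Fin k → ℝ) → ℝ} (hg : Continuous g) :
    IntegrableOn g (eball k) :=
  (hg.continuousOn.integrableOn_compact (isCompact_cball k)).mono_set (eball_subset_cball k)

theorem hasDerivAt_cons {k : ℕ} (z : Fin k → ℝ) (s : ℝ) :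
    HasDerivAt (fun s : ℝ => (Fin.cons s z : Fin (k + 1) → ℝ)) (Pi.single 0 1) s := by
  rw [hasDerivAt_pi]
  intro i
  refine Fin.cases ?_ (fun j => ?_) i
  · simp only [Fin.cons_zero, Pi.single_eq_same]
    exact hasDerivAt_id s
  · simp only [Fin.cons_succ]
    rw [Pi.single_eq_of_ne (Fin.succ_ne_zero j)]
    exact hasDerivAt_const s (z j)

theorem sum_cons {k : ℕ} (s : ℝ) (z : Fin k → ℝ) :
    ∑ i, (Fin.cons s z : Fin (k + 1) → ℝ) i ^ 2 = s ^ 2 + ∑ j, z j ^ 2 := by
  rw [Fin.sum_univ_succ]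
  simp

theorem slice_formula {k : ℕ} (h : (Fin (k + 1) → ℝ) → ℝ) (hh : ContDiff ℝ 1 h) :
    ∫ x in eball (k + 1), fderiv ℝ h x (Pi.single 0 1) =
      ∫ z in eball k, (h (Fin.cons (√(1 - ∑ j, z j ^ 2)) z) -
        h (Fin.cons (-√(1 - ∑ j, z j ^ 2)) z)) := by
  have hfc : Continuous (fderiv ℝ h) := hh.continuous_fderiv one_ne_zero
  let g : (Fin (k + 1) → ℝ) → ℝ := fun x => fderiv ℝ h x (Pi.single 0 1)
  have hg : Continuous g := hfc.clm_apply continuous_const
  have hgi : Integrable ((eball (k + 1)).indicator g) :=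
    (integrable_indicator_iff (isOpen_eball _).measurableSet).mpr (integrableOn_eball hg)
  have hmp := (volume_preserving_piFinSuccAbove (fun _ : Fin (k + 1) => ℝ) 0).symm
  have hsymm : ∀ p : ℝ × (Fin k → ℝ),
      (MeasurableEquiv.piFinSuccAbove (fun _ : Fin (k + 1) => ℝ) 0).symm p =
        (Fin.cons p.1 p.2 : Fin (k + 1) → ℝ) := by
    intro p
    simp [MeasurableEquiv.piFinSuccAbove_symm_apply, Fin.insertNthEquiv]
  have hgi2 : Integrable (fun p : ℝ × (Fin k → ℝ) =>
      (eball (k + 1)).indicator g (Fin.cons p.1 p.2)) (volume.prod volume) := by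
    have := (hmp.integrable_comp_emb (MeasurableEquiv.measurableEmbedding _)).mpr hgi
    refine this.congr ?_
    refine Eventually.of_forall fun p => ?_
    simp only [Function.comp]
    rw [hsymm]
  calc ∫ x in eball (k + 1), g x = ∫ x, (eball (k + 1)).indicator g x :=
        (integral_indicator (isOpen_eball _).measurableSet).symm
    _ = ∫ p : ℝ × (Fin k → ℝ), (eball (k + 1)).indicator g (Fin.cons p.1 p.2) := by
        rw [← hmp.integral_comp']
        apply integral_congr_ae
        exact Eventually.of_forall fun p => by simp only; rw [hsymm]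
    _ = ∫ z : Fin k → ℝ, ∫ s : ℝ, (eball (k + 1)).indicator g (Fin.cons s z) :=
        integral_prod_symm _ hgi2
    _ = ∫ z, (eball k).indicator (fun z => h (Fin.cons (√(1 - ∑ j, z j ^ 2)) z) -
        h (Fin.cons (-√(1 - ∑ j, z j ^ 2)) z)) z := by
        congr 1
        funext z
        by_cases hz : z ∈ eball k
        · rw [indicator_of_mem hz]
          set c := √(1 - ∑ j, z j ^ 2) with hc
          have hz' : ∑ j, z j ^ 2 < 1 := hz
          have hc0 : 0 ≤ c := Real.sqrt_nonneg _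
          have hc2 : c ^ 2 = 1 - ∑ j, z j ^ 2 := Real.sq_sqrt (by linarith)
          have hset : ∀ s : ℝ, (eball (k + 1)).indicator g (Fin.cons s z) =
              (Ioo (-c) c).indicator (fun s => g (Fin.cons s z)) s := by
            intro s
            by_cases hs : s ∈ Ioo (-c) c
            · rw [indicator_of_mem hs, indicator_of_mem]
              show ∑ i, (Fin.cons s z : Fin (k + 1) → ℝ) i ^ 2 < 1
              rw [sum_cons]
              have : s ^ 2 < c ^ 2 := sq_lt_sq' hs.1 hs.2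
              linarith
            · rw [indicator_of_notMem hs, indicator_of_notMem]
              intro hmem
              apply hs
              have hmem' : ∑ i, (Fin.cons s z : Fin (k + 1) → ℝ) i ^ 2 < 1 := hmem
              rw [sum_cons] at hmem'
              have : s ^ 2 < c ^ 2 := by linarith
              exact abs_lt.mp (abs_lt_of_sq_lt_sq this hc0)
          simp_rw [hset]
          rw [integral_indicator measurableSet_Ioo, ← integral_Ioc_eq_integral_Ioo,
            ← intervalIntegral.integral_of_le (by linarith)]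
          refine intervalIntegral.integral_eq_sub_of_hasDerivAt (f := fun s => h (Fin.cons s z))
            ?_ ?_
          · intro s _
            exact (hh.differentiable one_ne_zero _).hasFDerivAt.comp_hasDerivAt s
              (hasDerivAt_cons z s)
          · apply Continuous.intervalIntegrable
            exact hg.comp (continuous_iff_continuousAt.mpr fun s =>
              (hasDerivAt_cons z s).continuousAt)
        · rw [indicator_of_notMem hz]
          have hz' : ¬ ∑ j, z j ^ 2 < 1 := hz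
          have : ∀ s : ℝ, (eball (k + 1)).indicator g (Fin.cons s z) = 0 := by
            intro s
            rw [indicator_of_notMem]
            intro hmem
            have hmem' : ∑ i, (Fin.cons s z : Fin (k + 1) → ℝ) i ^ 2 < 1 := hmem
            rw [sum_cons] at hmem'
            exact hz' (by nlinarith [sq_nonneg s])
          simp [this]
    _ = _ := integral_indicator (isOpen_eball _).measurableSet

/-- The volume of the unit ball. -/
noncomputable def vol (k : ℕ) : ℝ := (volume (eball k)).toReal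

theorem integral_one_eball (k : ℕ) : ∫ _ in eball k, (1 : ℝ) = vol k := by
  simp [vol, Measure.real]

theorem volume_eball_lt_top (k : ℕ) : volume (eball k) < ⊤ :=
  (measure_mono (eball_subset_cball k)).trans_lt (isCompact_cball k).measure_lt_top

theorem vol_succ (k : ℕ) :
    vol (k + 1) = ∫ z in eball k, 2 * √(1 - ∑ j, z j ^ 2) := by
  have h := slice_formula (k := k) (fun x => x 0)
    (contDiff_apply ℝ ℝ (0 : Fin (k + 1)))
  have h1 : ∀ x : Fin (k + 1) → ℝ,
      fderiv ℝ (fun x : Fin (k + 1) → ℝ => x 0) x (Pi.single 0 1) = 1 := by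
    intro x
    have : HasFDerivAt (fun x : Fin (k + 1) → ℝ => x 0)
        (ContinuousLinearMap.proj (R := ℝ) (φ := fun _ : Fin (k + 1) => ℝ) 0) x :=
      (ContinuousLinearMap.proj (R := ℝ) (φ := fun _ : Fin (k + 1) => ℝ) 0).hasFDerivAt
    rw [this.fderiv]
    simp
  simp_rw [h1] at h
  rw [integral_one_eball] at h
  rw [h]
  congr 1
  funext z
  simp only [Fin.cons_zero]
  ring

variable {W : Type*} [NormedAddCommGroup W] [InnerProductSpace ℝ W] [CompleteSpace W]

open InnerProductSpace in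
/-- **Mean derivative of a bilipschitz map.** -/
theorem mean_derivative_ne_zero {k : ℕ} (F : (Fin (k + 1) → ℝ) → W) (hF : ContDiff ℝ 1 F)
    (κ : ℝ) (hκ : 0 < κ)
    (hup : ∀ x y, ‖F x - F y‖ ^ 2 ≤ κ * ∑ i, (x i - y i) ^ 2)
    (hlo : ∀ x y, κ⁻¹ * ∑ i, (x i - y i) ^ 2 ≤ ‖F x - F y‖ ^ 2)
    (hgap : κ ^ 2 * (2 * vol k - vol (k + 1)) < 2 * vol k + vol (k + 1)) :
    ∫ x in eball (k + 1), fderiv ℝ F x (Pi.single 0 1) ≠ 0 := by
  intro h0
  set p : Fin (k + 1) → ℝ := Fin.cons 1 0 with hp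
  set m : Fin (k + 1) → ℝ := Fin.cons (-1) 0 with hm
  set a := F p with ha
  set b := F m with hb
  let e : W := a - b
  let h : (Fin (k + 1) → ℝ) → ℝ := fun x => ⟪e, F x⟫_ℝ
  have hh : ContDiff ℝ 1 h := contDiff_const.inner ℝ hF
  have hfc : Continuous (fderiv ℝ F) := hF.continuous_fderiv one_ne_zero
  have hFi : IntegrableOn (fun x => fderiv ℝ F x (Pi.single 0 1)) (eball (k + 1)) :=
    ((hfc.clm_apply continuous_const).continuousOn.integrableOn_compact
      (isCompact_cball (k + 1))).mono_set (eball_subset_cball _)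
  have hfh : ∀ x v, fderiv ℝ h x v = ⟪e, fderiv ℝ F x v⟫_ℝ := by
    intro x v
    have hFx := (hF.differentiable one_ne_zero x).hasFDerivAt
    have h1 : HasFDerivAt h ((innerSL ℝ e).comp (fderiv ℝ F x)) x :=
      (innerSL ℝ e).hasFDerivAt.comp x hFx
    rw [h1.fderiv]
    simp
  have hint : ∫ x in eball (k + 1), fderiv ℝ h x (Pi.single 0 1) = 0 := by
    simp_rw [hfh]
    have := ContinuousLinearMap.integral_comp_comm (innerSL ℝ e) hFi
    simp only [innerSL_apply_apply] at this
    rw [this, h0, inner_zero_right]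
  rw [slice_formula h hh] at hint
  -- the pointwise lower bound
  have hpt : ∀ z ∈ eball k, κ⁻¹ * (2 + 2 * √(1 - ∑ j, z j ^ 2)) -
      κ * (2 - 2 * √(1 - ∑ j, z j ^ 2)) ≤
      h (Fin.cons (√(1 - ∑ j, z j ^ 2)) z) - h (Fin.cons (-√(1 - ∑ j, z j ^ 2)) z) := by
    intro z hz
    have hz' : ∑ j, z j ^ 2 < 1 := hz
    set c := √(1 - ∑ j, z j ^ 2) with hc
    have hc2 : c ^ 2 = 1 - ∑ j, z j ^ 2 := Real.sq_sqrt (by linarith)
    set P := F (Fin.cons c z) with hP
    set Q := F (Fin.cons (-c) z) with hQ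
    have e1 : ∑ i, ((Fin.cons c z : Fin (k + 1) → ℝ) i - m i) ^ 2 = 2 + 2 * c := by
      rw [Fin.sum_univ_succ]
      simp only [hm, Fin.cons_zero, Fin.cons_succ, Pi.zero_apply, sub_zero]
      nlinarith
    have e2 : ∑ i, ((Fin.cons c z : Fin (k + 1) → ℝ) i - p i) ^ 2 = 2 - 2 * c := by
      rw [Fin.sum_univ_succ]
      simp only [hp, Fin.cons_zero, Fin.cons_succ, Pi.zero_apply, sub_zero]
      nlinarith
    have e3 : ∑ i, ((Fin.cons (-c) z : Fin (k + 1) → ℝ) i - m i) ^ 2 = 2 - 2 * c := by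
      rw [Fin.sum_univ_succ]
      simp only [hm, Fin.cons_zero, Fin.cons_succ, Pi.zero_apply, sub_zero]
      nlinarith
    have e4 : ∑ i, ((Fin.cons (-c) z : Fin (k + 1) → ℝ) i - p i) ^ 2 = 2 + 2 * c := by
      rw [Fin.sum_univ_succ]
      simp only [hp, Fin.cons_zero, Fin.cons_succ, Pi.zero_apply, sub_zero]
      nlinarith
    have b1 := hlo (Fin.cons c z) m
    have b2 := hup (Fin.cons c z) p
    have b3 := hup (Fin.cons (-c) z) m
    have b4 := hlo (Fin.cons (-c) z) p
    rw [e1] at b1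
    rw [e2] at b2
    rw [e3] at b3
    rw [e4] at b4
    have key : h (Fin.cons c z) - h (Fin.cons (-c) z) =
        (‖P - b‖ ^ 2 - ‖P - a‖ ^ 2 - ‖Q - b‖ ^ 2 + ‖Q - a‖ ^ 2) / 2 := by
      show ⟪a - b, P⟫_ℝ - ⟪a - b, Q⟫_ℝ = _
      rw [norm_sub_sq_real P b, norm_sub_sq_real P a, norm_sub_sq_real Q b,
        norm_sub_sq_real Q a]
      rw [inner_sub_left, inner_sub_left, real_inner_comm P a, real_inner_comm P b,
        real_inner_comm Q a, real_inner_comm Q b]
      ring
    rw [key]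
    linarith
  -- integrate
  have hci : Continuous fun z : Fin k → ℝ => √(1 - ∑ j, z j ^ 2) := by fun_prop
  have hccons : Continuous fun z : Fin k → ℝ =>
      (Fin.cons (√(1 - ∑ j, z j ^ 2)) z : Fin (k + 1) → ℝ) := by
    refine continuous_pi fun i => ?_
    refine Fin.cases ?_ (fun j => ?_) i
    · simp only [Fin.cons_zero]
      exact hci
    · simpa using continuous_apply j
  have hccons' : Continuous fun z : Fin k → ℝ =>
      (Fin.cons (-√(1 - ∑ j, z j ^ 2)) z : Fin (k + 1) → ℝ) := by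
    refine continuous_pi fun i => ?_
    refine Fin.cases ?_ (fun j => ?_) i
    · simp only [Fin.cons_zero]
      exact hci.neg
    · simpa using continuous_apply j
  have hle : ∫ z in eball k, (κ⁻¹ * (2 + 2 * √(1 - ∑ j, z j ^ 2)) -
      κ * (2 - 2 * √(1 - ∑ j, z j ^ 2))) ≤ 0 := by
    rw [← hint]
    apply setIntegral_mono_on
    · exact integrableOn_eball (by fun_prop)
    · exact integrableOn_eball ((hh.continuous.comp hccons).sub (hh.continuous.comp hccons'))
    · exact (isOpen_eball k).measurableSet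
    · exact hpt
  have hval : ∫ z in eball k, (κ⁻¹ * (2 + 2 * √(1 - ∑ j, z j ^ 2)) -
      κ * (2 - 2 * √(1 - ∑ j, z j ^ 2))) =
      κ⁻¹ * (2 * vol k + vol (k + 1)) - κ * (2 * vol k - vol (k + 1)) := by
    have e : ∀ z : Fin k → ℝ, κ⁻¹ * (2 + 2 * √(1 - ∑ j, z j ^ 2)) -
        κ * (2 - 2 * √(1 - ∑ j, z j ^ 2)) =
        (2 * κ⁻¹ - 2 * κ) * 1 + (κ⁻¹ + κ) * (2 * √(1 - ∑ j, z j ^ 2)) := by
      intro z
      ring
    simp_rw [e]
    have i1 : IntegrableOn (fun _ : Fin k → ℝ => (2 * κ⁻¹ - 2 * κ) * 1) (eball k) :=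
      integrableOn_eball (by fun_prop)
    have i2 : IntegrableOn (fun z : Fin k → ℝ => (κ⁻¹ + κ) * (2 * √(1 - ∑ j, z j ^ 2)))
        (eball k) := integrableOn_eball (by fun_prop)
    rw [integral_add i1 i2, integral_const_mul, integral_const_mul, integral_one_eball,
      ← vol_succ]
    ring
  rw [hval] at hle
  have hmul : κ * (κ⁻¹ * (2 * vol k + vol (k + 1)) - κ * (2 * vol k - vol (k + 1))) ≤ 0 :=
    mul_nonpos_of_nonneg_of_nonpos hκ.le hle
  have hexp : κ * (κ⁻¹ * (2 * vol k + vol (k + 1)) - κ * (2 * vol k - vol (k + 1))) =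
      (2 * vol k + vol (k + 1)) - κ ^ 2 * (2 * vol k - vol (k + 1)) := by
    field_simp
  rw [hexp] at hmul
  linarith

open InnerProductSpace in
/-- **Mean derivative of a map that is close to an affine map on the unit sphere.** -/
theorem mean_derivative_ne_zero_of_flat {k : ℕ} (F : (Fin (k + 1) → ℝ) → W)
    (hF : ContDiff ℝ 1 F) (a : W) (Q : (Fin (k + 1) → ℝ) →L[ℝ] W) (δ : ℝ)
    (hδ : ∀ x, ∑ i, x i ^ 2 = 1 → ‖F x - a - Q x‖ ≤ δ)
    (hgap : 2 * vol k * δ < vol (k + 1) * ‖Q (Pi.single 0 1)‖)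
    (hvk : 0 ≤ vol k) :
    ∫ x in eball (k + 1), fderiv ℝ F x (Pi.single 0 1) ≠ 0 := by
  intro h0
  let e : W := Q (Pi.single 0 1)
  have hδ0 : 0 ≤ δ := by
    have : ∑ i, (Fin.cons 1 0 : Fin (k + 1) → ℝ) i ^ 2 = 1 := by
      rw [sum_cons]
      simp
    exact (norm_nonneg _).trans (hδ _ this)
  have hen : 0 < ‖e‖ := by
    by_contra hneg
    have h1 : ‖e‖ = 0 := le_antisymm (not_lt.mp hneg) (norm_nonneg _)
    have h2 : vol (k + 1) * ‖Q (Pi.single 0 1)‖ = 0 := by
      show vol (k + 1) * ‖e‖ = 0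
      rw [h1, mul_zero]
    rw [h2] at hgap
    have : 0 ≤ 2 * vol k * δ := by positivity
    linarith
  let h : (Fin (k + 1) → ℝ) → ℝ := fun x => ⟪e, F x - a - Q x⟫_ℝ
  have hh : ContDiff ℝ 1 h := contDiff_const.inner ℝ ((hF.sub contDiff_const).sub Q.contDiff)
  have hfc : Continuous (fderiv ℝ F) := hF.continuous_fderiv one_ne_zero
  have hFi : IntegrableOn (fun x => fderiv ℝ F x (Pi.single 0 1)) (eball (k + 1)) :=
    ((hfc.clm_apply continuous_const).continuousOn.integrableOn_compact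
      (isCompact_cball (k + 1))).mono_set (eball_subset_cball _)
  have hfh : ∀ x v, fderiv ℝ h x v = ⟪e, fderiv ℝ F x v⟫_ℝ - ⟪e, Q v⟫_ℝ := by
    intro x v
    have hFx := (hF.differentiable one_ne_zero x).hasFDerivAt
    have h1 : HasFDerivAt (fun x => F x - a - Q x) (fderiv ℝ F x - Q) x :=
      (hFx.sub_const a).sub Q.hasFDerivAt
    have h2 : HasFDerivAt h ((innerSL ℝ e).comp (fderiv ℝ F x - Q)) x :=
      (innerSL ℝ e).hasFDerivAt.comp x h1
    rw [h2.fderiv]
    simp
  have hint : ∫ x in eball (k + 1), fderiv ℝ h x (Pi.single 0 1) = -(‖e‖ ^ 2 * vol (k + 1)) := by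
    simp_rw [hfh]
    have hi1 : IntegrableOn (fun x => ⟪e, fderiv ℝ F x (Pi.single 0 1)⟫_ℝ) (eball (k + 1)) := by
      have := (innerSL ℝ e).integrable_comp hFi
      exact this
    rw [integral_sub hi1 (by
      exact (integrableOn_eball (g := fun _ => ⟪e, Q (Pi.single 0 1)⟫_ℝ) continuous_const))]
    have := ContinuousLinearMap.integral_comp_comm (innerSL ℝ e) hFi
    simp only [innerSL_apply_apply] at this
    rw [this, h0, inner_zero_right]
    have h3 : ⟪e, Q (Pi.single 0 1)⟫_ℝ = ‖e‖ ^ 2 := real_inner_self_eq_norm_sq e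
    rw [h3]
    have h4 : ∫ _ in eball (k + 1), ‖e‖ ^ 2 = ‖e‖ ^ 2 * vol (k + 1) := by
      have : ∫ _ in eball (k + 1), ‖e‖ ^ 2 * 1 = ‖e‖ ^ 2 * ∫ _ in eball (k + 1), (1 : ℝ) :=
        integral_const_mul _ _
      rw [integral_one_eball] at this
      simpa using this
    rw [h4]
    ring
  rw [slice_formula h hh] at hint
  have hb : ∀ x, ∑ i, x i ^ 2 = 1 → |h x| ≤ ‖e‖ * δ := by
    intro x hx
    refine (abs_real_inner_le_norm _ _).trans ?_
    exact mul_le_mul_of_nonneg_left (hδ x hx) (norm_nonneg _)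
  have hpt : ∀ z ∈ eball k, -(2 * (‖e‖ * δ)) ≤
      h (Fin.cons (√(1 - ∑ j, z j ^ 2)) z) - h (Fin.cons (-√(1 - ∑ j, z j ^ 2)) z) := by
    intro z hz
    have hz' : ∑ j, z j ^ 2 < 1 := hz
    have hc2 : √(1 - ∑ j, z j ^ 2) ^ 2 = 1 - ∑ j, z j ^ 2 := Real.sq_sqrt (by linarith)
    have s1 : ∑ i, (Fin.cons (√(1 - ∑ j, z j ^ 2)) z : Fin (k + 1) → ℝ) i ^ 2 = 1 := by
      rw [sum_cons, hc2]
      ring
    have s2 : ∑ i, (Fin.cons (-√(1 - ∑ j, z j ^ 2)) z : Fin (k + 1) → ℝ) i ^ 2 = 1 := by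
      rw [sum_cons, neg_sq, hc2]
      ring
    have b1 := abs_le.mp (hb _ s1)
    have b2 := abs_le.mp (hb _ s2)
    linarith [b1.1, b2.2]
  have hci : Continuous fun z : Fin k → ℝ => √(1 - ∑ j, z j ^ 2) := by fun_prop
  have hccons : Continuous fun z : Fin k → ℝ =>
      (Fin.cons (√(1 - ∑ j, z j ^ 2)) z : Fin (k + 1) → ℝ) := by
    refine continuous_pi fun i => ?_
    refine Fin.cases ?_ (fun j => ?_) i
    · simp only [Fin.cons_zero]
      exact hci
    · simpa using continuous_apply j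
  have hccons' : Continuous fun z : Fin k → ℝ =>
      (Fin.cons (-√(1 - ∑ j, z j ^ 2)) z : Fin (k + 1) → ℝ) := by
    refine continuous_pi fun i => ?_
    refine Fin.cases ?_ (fun j => ?_) i
    · simp only [Fin.cons_zero]
      exact hci.neg
    · simpa using continuous_apply j
  have hle : ∫ _ in eball k, -(2 * (‖e‖ * δ)) ≤ -(‖e‖ ^ 2 * vol (k + 1)) := by
    rw [← hint]
    apply setIntegral_mono_on
    · exact integrableOn_eball (by fun_prop)
    · exact integrableOn_eball ((hh.continuous.comp hccons).sub (hh.continuous.comp hccons'))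
    · exact (isOpen_eball k).measurableSet
    · exact hpt
  have hval : ∫ _ in eball k, -(2 * (‖e‖ * δ)) = -(2 * (‖e‖ * δ)) * vol k := by
    have : ∫ _ in eball k, -(2 * (‖e‖ * δ)) * 1 = -(2 * (‖e‖ * δ)) * ∫ _ in eball k, (1 : ℝ) :=
      integral_const_mul _ _
    rw [integral_one_eball] at this
    simpa using this
  rw [hval] at hle
  have h5 : ‖e‖ * (2 * vol k * δ) < ‖e‖ * (vol (k + 1) * ‖e‖) := mul_lt_mul_of_pos_left hgap hen
  nlinarith

end Pool.Agent.SAV
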