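import Mathlib

/-!
A smooth family of maps of a finite dimensional space which are the identity off one compact set
and whose derivatives are injective has a smooth family of inverses.
-/

set_option autoImplicit false

open Set Filter Topology Metric

namespace Pool.Agent.SAV

variable {E : Type*} [NormedAddCommGroup E] [NormedSpace ℝ E] [FiniteDimensional ℝ E]

/-- A `C^1` map with injective derivative at a point is locally injective and open there. -/
theorem strict_equiv {F : Type*} [NormedAddCommGroup F] [NormedSpace ℝ F] [FiniteDimensional ℝ F]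
    {h : F → F} {x : F} (hs : HasStrictFDerivAt h (fderiv ℝ h x) x)
    (hinj : ∀ v, fderiv ℝ h x v = 0 → v = 0) :
    ∃ e : F ≃L[ℝ] F, (e : F →L[ℝ] F) = fderiv ℝ h x ∧ HasStrictFDerivAt h (e : F →L[ℝ] F) x := by
  have hk : Function.Injective (fderiv ℝ h x : F →ₗ[ℝ] F) := by
    rw [← LinearMap.ker_eq_bot, LinearMap.ker_eq_bot']
    intro m hm
    exact hinj m hm
  let e := (LinearEquiv.ofInjectiveEndo (fderiv ℝ h x : F →ₗ[ℝ] F) hk).toContinuousLinearEquiv
  have he : (e : F →L[ℝ] F) = fderiv ℝ h x := by
    ext v
    simp [e]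
  exact ⟨e, he, by rw [he]; exact hs⟩

/-- The closed set argument: a local diffeomorphism that is the identity off a compact set is
injective. -/
theorem injective_of_compact_support (h : E → E) (hc : ContDiff ℝ 1 h) (K : Set E)
    (hK : IsCompact K) (hid : ∀ x, x ∉ K → h x = x)
    (hinj : ∀ x v, fderiv ℝ h x v = 0 → v = 0) : Function.Injective h := by
  rcases subsingleton_or_nontrivial E with hE | hE
  · exact fun x y _ => Subsingleton.elim _ _
  have hcont : Continuous h := hc.continuous
  have hstrict : ∀ x, HasStrictFDerivAt h (fderiv ℝ h x) x := fun x =>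
    hc.contDiffAt.hasStrictFDerivAt one_ne_zero
  have hmap : ∀ x, map h (𝓝 x) = 𝓝 (h x) := by
    intro x
    obtain ⟨e, he, hs⟩ := strict_equiv (hstrict x) (hinj x)
    exact hs.map_nhds_eq_of_equiv
  have hloc : ∀ x, ∃ U ∈ 𝓝 x, InjOn h U := by
    intro x
    obtain ⟨e, he, hs⟩ := strict_equiv (hstrict x) (hinj x)
    refine ⟨(hs.toOpenPartialHomeomorph h).source, ?_, ?_⟩
    · exact (hs.toOpenPartialHomeomorph h).open_source.mem_nhds
        hs.mem_toOpenPartialHomeomorph_source
    · exact (hs.toOpenPartialHomeomorph h).injOn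
  -- the set of double values
  let Y : Set E := {y | ∃ x x', x ≠ x' ∧ h x = y ∧ h x' = y}
  have hopen : IsOpen Y := by
    rw [isOpen_iff_mem_nhds]
    rintro y ⟨x, x', hne, hx, hx'⟩
    obtain ⟨U, V, hU, hV, hxU, hxV, hUV⟩ := t2_separation hne
    have h1 : h '' U ∈ 𝓝 y := by
      rw [← hx, ← hmap x]
      exact image_mem_map (hU.mem_nhds hxU)
    have h2 : h '' V ∈ 𝓝 y := by
      rw [← hx', ← hmap x']
      exact image_mem_map (hV.mem_nhds hxV)
    filter_upwards [h1, h2] with z hz1 hz2
    obtain ⟨a, ha, haz⟩ := hz1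
    obtain ⟨b, hb, hbz⟩ := hz2
    refine ⟨a, b, ?_, haz, hbz⟩
    rintro rfl
    exact Set.disjoint_left.mp hUV ha hb
  obtain ⟨R, hR⟩ := hK.isBounded.subset_closedBall (0 : E)
  obtain ⟨R', hR'⟩ := (hK.image hcont).isBounded.subset_closedBall (0 : E)
  have hbd : ∀ x, ‖x‖ ≤ max R ‖h x‖ := by
    intro x
    by_cases hx : x ∈ K
    · have := hR hx
      rw [mem_closedBall_zero_iff] at this
      exact le_max_of_le_left this
    · rw [hid x hx]
      exact le_max_right _ _
  have hclosed : IsClosed Y := by
    rw [← isSeqClosed_iff_isClosed]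
    intro y y0 hy hlim
    choose x x' hne hx hx' using hy
    -- bounded sequences
    have hyb : ∃ C, ∀ k, ‖y k‖ ≤ C := by
      have := (Metric.isBounded_range_of_tendsto y hlim).subset_closedBall (0 : E)
      obtain ⟨C, hC⟩ := this
      exact ⟨C, fun k => by simpa using hC (mem_range_self k)⟩
    obtain ⟨C, hC⟩ := hyb
    have hxb : ∀ k, (x k, x' k) ∈ closedBall (0 : E) (max R C) ×ˢ closedBall (0 : E) (max R C) := by
      intro k
      refine ⟨?_, ?_⟩
      · simp only [mem_closedBall_zero_iff]
        refine (hbd (x k)).trans ?_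
        rw [hx k]
        exact max_le_max le_rfl (hC k)
      · simp only [mem_closedBall_zero_iff]
        refine (hbd (x' k)).trans ?_
        rw [hx' k]
        exact max_le_max le_rfl (hC k)
    have hcomp : IsCompact (closedBall (0 : E) (max R C) ×ˢ closedBall (0 : E) (max R C)) :=
      (isCompact_closedBall _ _).prod (isCompact_closedBall _ _)
    obtain ⟨⟨a, b⟩, -, φ, hφ, hφlim⟩ := hcomp.tendsto_subseq hxb
    have ha : Tendsto (fun k => x (φ k)) atTop (𝓝 a) := by
      have := (continuous_fst.tendsto _).comp hφlim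
      exact this
    have hb : Tendsto (fun k => x' (φ k)) atTop (𝓝 b) := by
      have := (continuous_snd.tendsto _).comp hφlim
      exact this
    have hya : h a = y0 := by
      have h1 : Tendsto (fun k => h (x (φ k))) atTop (𝓝 (h a)) := (hcont.tendsto a).comp ha
      have h2 : Tendsto (fun k => h (x (φ k))) atTop (𝓝 y0) := by
        have := hlim.comp hφ.tendsto_atTop
        refine this.congr ?_
        intro k
        exact (hx (φ k)).symm
      exact tendsto_nhds_unique h1 h2
    have hyb' : h b = y0 := by
      have h1 : Tendsto (fun k => h (x' (φ k))) atTop (𝓝 (h b)) := (hcont.tendsto b).comp hb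
      have h2 : Tendsto (fun k => h (x' (φ k))) atTop (𝓝 y0) := by
        have := hlim.comp hφ.tendsto_atTop
        refine this.congr ?_
        intro k
        exact (hx' (φ k)).symm
      exact tendsto_nhds_unique h1 h2
    by_cases hab : a = b
    · exfalso
      subst hab
      obtain ⟨U, hU, hUinj⟩ := hloc a
      have e1 : ∀ᶠ k in atTop, x (φ k) ∈ U := ha hU
      have e2 : ∀ᶠ k in atTop, x' (φ k) ∈ U := hb hU
      obtain ⟨k, hk1, hk2⟩ := (e1.and e2).exists
      refine hne (φ k) (hUinj hk1 hk2 ?_)
      rw [hx, hx']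
    · exact ⟨a, b, hab, hya, hyb'⟩
  have hclopen : IsClopen Y := ⟨hclosed, hopen⟩
  rcases isClopen_iff.mp hclopen with h0 | h1
  · intro x x' hxx
    by_contra hne
    have : h x ∈ Y := ⟨x, x', hne, rfl, hxx.symm⟩
    rw [h0] at this
    exact this
  · exfalso
    obtain ⟨z, hz⟩ := NormedSpace.exists_lt_norm ℝ E (max R R')
    have hzY : z ∈ Y := by rw [h1]; trivial
    obtain ⟨a, b, hab, ha, hb⟩ := hzY
    have key : ∀ c, h c = z → c = z := by
      intro c hc'
      by_cases hcK : c ∈ K
      · exfalso
        have := hR' (mem_image_of_mem h hcK)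
        rw [hc', mem_closedBall_zero_iff] at this
        exact absurd (this.trans (le_max_right R R')) (not_le.mpr hz)
      · rw [← hid c hcK, hc']
    exact hab ((key a ha).trans (key b hb).symm)

/-- ... and surjective. -/
theorem surjective_of_compact_support (h : E → E) (hc : ContDiff ℝ 1 h) (K : Set E)
    (hK : IsCompact K) (hid : ∀ x, x ∉ K → h x = x)
    (hinj : ∀ x v, fderiv ℝ h x v = 0 → v = 0) : Function.Surjective h := by
  have hcont : Continuous h := hc.continuous
  have hstrict : ∀ x, HasStrictFDerivAt h (fderiv ℝ h x) x := fun x =>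
    hc.contDiffAt.hasStrictFDerivAt one_ne_zero
  have hmap : ∀ x, map h (𝓝 x) = 𝓝 (h x) := by
    intro x
    obtain ⟨e, he, hs⟩ := strict_equiv (hstrict x) (hinj x)
    exact hs.map_nhds_eq_of_equiv
  have hopen : IsOpen (range h) := by
    rw [isOpen_iff_mem_nhds]
    rintro y ⟨x, rfl⟩
    rw [← hmap x]
    exact range_mem_map
  obtain ⟨R, hR⟩ := hK.isBounded.subset_closedBall (0 : E)
  have hclosed : IsClosed (range h) := by
    have : range h = h '' (closedBall (0 : E) R) ∪ (ball (0 : E) R)ᶜ := by
      ext y
      constructor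
      · rintro ⟨x, rfl⟩
        by_cases hx : x ∈ closedBall (0 : E) R
        · exact Or.inl (mem_image_of_mem h hx)
        · right
          have hxK : x ∉ K := fun hxK => hx (hR hxK)
          rw [hid x hxK]
          exact fun hx' => hx (ball_subset_closedBall hx')
      · rintro (⟨x, -, rfl⟩ | hy)
        · exact mem_range_self x
        · by_cases hyK : y ∈ K
          · -- `y` lies on the sphere and in `K`; use limits from outside
            by_cases hy2 : ‖y‖ ≤ R
            · -- y in K with norm exactly R
              have hyR : ‖y‖ = R := by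
                refine le_antisymm hy2 ?_
                by_contra hlt
                push Not at hlt
                exact hy (mem_ball_zero_iff.mpr hlt)
              -- approach by points outside the closed ball
              have hcl : y ∈ closure (closedBall (0 : E) R)ᶜ ∨ h y = y := by
                by_cases hR0 : R = 0
                · -- then y = 0
                  subst hR0
                  have hy0 : y = 0 := norm_eq_zero.mp hyR
                  rcases subsingleton_or_nontrivial E with hE | hE
                  · right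
                    exact Subsingleton.elim _ _
                  · left
                    rw [closure_compl, interior_closedBall' (x := (0:E)) (r := 0)]
                    subst hy0
                    simp
                · left
                  rw [closure_compl, interior_closedBall (0 : E) hR0]
                  exact hy
              rcases hcl with hcl | hcl
              · have : h y = y := by
                  have hsub : (closedBall (0 : E) R)ᶜ ⊆ {z | h z = z} := by
                    intro z hz
                    exact hid z (fun hzK => hz (hR hzK))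
                  have hcls : IsClosed {z | h z = z} := isClosed_eq hcont continuous_id
                  exact (closure_minimal hsub hcls) hcl
                exact ⟨y, this⟩
              · exact ⟨y, hcl⟩
            · exact ⟨y, hid y (fun hyK => hy2 (mem_closedBall_zero_iff.mp (hR hyK)))⟩
          · exact ⟨y, hid y hyK⟩
    rw [this]
    exact ((isCompact_closedBall _ _).image hcont).isClosed.union isOpen_ball.isClosed_compl
  have hclopen : IsClopen (range h) := ⟨hclosed, hopen⟩
  rcases isClopen_iff.mp hclopen with h0 | h1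
  · exfalso
    have : h 0 ∈ range h := mem_range_self 0
    rw [h0] at this
    exact this
  · exact range_eq_univ.mp h1

/-- The smooth family of inverses. -/
theorem exists_smooth_inverse (H : ℝ × E → E) (hH : ContDiff ℝ ((⊤ : ℕ∞) : WithTop ℕ∞) H)
    (K : Set E) (hK : IsCompact K) (hid : ∀ t x, x ∉ K → H (t, x) = x)
    (hinj : ∀ t x v, fderiv ℝ (fun z => H (t, z)) x v = 0 → v = 0) :
    ∃ G : ℝ × E → E, ContDiff ℝ ((⊤ : ℕ∞) : WithTop ℕ∞) G ∧
      ∀ t x, H (t, G (t, x)) = x ∧ G (t, H (t, x)) = x := by
  have hsl : ∀ t, ContDiff ℝ ((⊤ : ℕ∞) : WithTop ℕ∞) (fun z => H (t, z)) := fun t =>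
    hH.comp (contDiff_const.prodMk contDiff_id)
  have h1top : (1 : WithTop ℕ∞) ≤ ((⊤ : ℕ∞) : WithTop ℕ∞) := by
    exact_mod_cast (le_top : (1 : ℕ∞) ≤ ⊤)
  have hI : ∀ t, Function.Injective (fun z => H (t, z)) := fun t =>
    injective_of_compact_support _ ((hsl t).of_le h1top) K hK (hid t) (hinj t)
  have hS : ∀ t, Function.Surjective (fun z => H (t, z)) := fun t =>
    surjective_of_compact_support _ ((hsl t).of_le h1top) K hK (hid t) (hinj t)
  let Φ : ℝ × E → ℝ × E := fun p => (p.1, H p)
  have hΦ : ContDiff ℝ ((⊤ : ℕ∞) : WithTop ℕ∞) Φ := contDiff_fst.prodMk hH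
  have hΦb : Function.Bijective Φ := by
    constructor
    · rintro ⟨t, x⟩ ⟨t', x'⟩ hxx
      simp only [Φ, Prod.mk.injEq] at hxx
      obtain ⟨rfl, hx⟩ := hxx
      rw [hI t hx]
    · rintro ⟨t, y⟩
      obtain ⟨x, hx⟩ := hS t y
      exact ⟨(t, x), by simp only [Φ]; rw [← hx]⟩
  have hΦd : ∀ p v, fderiv ℝ Φ p v = 0 → v = 0 := by
    rintro ⟨t, x⟩ ⟨τ, ξ⟩ hv
    have hHd : DifferentiableAt ℝ H (t, x) := (hH.differentiable (by simp)) _
    have hfd : fderiv ℝ Φ (t, x) = (ContinuousLinearMap.fst ℝ ℝ E).prod (fderiv ℝ H (t, x)) := by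
      have : HasFDerivAt Φ ((ContinuousLinearMap.fst ℝ ℝ E).prod (fderiv ℝ H (t, x))) (t, x) :=
        hasFDerivAt_fst.prodMk hHd.hasFDerivAt
      exact this.fderiv
    rw [hfd] at hv
    simp only [ContinuousLinearMap.prod_apply, ContinuousLinearMap.coe_fst', Prod.mk_eq_zero] at hv
    obtain ⟨hτ, hξ⟩ := hv
    subst hτ
    have hsl' : fderiv ℝ (fun z => H (t, z)) x ξ = fderiv ℝ H (t, x) (0, ξ) := by
      have h1 : HasFDerivAt (fun z : E => (t, z)) (ContinuousLinearMap.inr ℝ ℝ E) x :=
        hasFDerivAt_prodMk_right t x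
      have h2 := hHd.hasFDerivAt.comp x h1
      have h3 : fderiv ℝ (fun z => H (t, z)) x = (fderiv ℝ H (t, x)).comp
          (ContinuousLinearMap.inr ℝ ℝ E) := h2.fderiv
      rw [h3]
      simp
    have := hinj t x ξ (by rw [hsl']; exact hξ)
    rw [this]
    rfl
  have hΦstrict : ∀ p, HasStrictFDerivAt Φ (fderiv ℝ Φ p) p := fun p =>
    hΦ.contDiffAt.hasStrictFDerivAt (by simp)
  choose e he hs using fun p => strict_equiv (hΦstrict p) (hΦd p)
  have hopen : IsOpenMap Φ := isOpenMap_of_hasStrictFDerivAt_equiv hs
  let Ψ : ℝ × E ≃ₜ ℝ × E :=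
    (Equiv.ofBijective Φ hΦb).toHomeomorphOfContinuousOpen hΦ.continuous hopen
  have hΨ : ∀ p, Ψ p = Φ p := fun p => rfl
  have hsymm : ContDiff ℝ ((⊤ : ℕ∞) : WithTop ℕ∞) Ψ.symm :=
    Homeomorph.contDiff_symm Ψ (f₀' := e) (fun a => (hs a).hasFDerivAt) hΦ
  refine ⟨fun p => (Ψ.symm p).2, contDiff_snd.comp hsymm, ?_⟩
  intro t x
  have hfst : ∀ p, (Ψ.symm p).1 = p.1 := by
    intro p
    have := Ψ.apply_symm_apply p
    rw [hΨ] at this
    have h1 := congrArg Prod.fst this
    exact h1
  constructor
  · have := Ψ.apply_symm_apply (t, x)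
    rw [hΨ] at this
    have h2 := congrArg Prod.snd this
    simp only [Φ] at h2
    have h3 : (t, (Ψ.symm (t, x)).2) = Ψ.symm (t, x) := by
      rw [← Prod.mk.eta (p := Ψ.symm (t, x)), hfst]
    show H (t, (Ψ.symm (t, x)).2) = x
    rw [h3]
    exact h2
  · have := Ψ.symm_apply_apply (t, x)
    rw [hΨ] at this
    have h2 := congrArg Prod.snd this
    exact h2

end Pool.Agent.SAV
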