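import Mathlib
import Pool.Agent.SAV.Inverse

/-!
The averaging principle: if all averages of the derivative of a compactly supported
diffeomorphism, over all translates and dilates of one atomless compactly supported probability
measure, are invertible, then the diffeomorphism is smoothly isotopic to the identity with uniform
compact support.
-/

set_option autoImplicit false

open Set Filter Topology Metric MeasureTheory Convolution

namespace Pool.Agent.SAV

variable {E : Type*} [NormedAddCommGroup E] [NormedSpace ℝ E] [FiniteDimensional ℝ E]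
  [MeasurableSpace E] [BorelSpace E]

omit [NormedSpace ℝ E] [FiniteDimensional ℝ E] in
/-- Small balls have uniformly small measure. -/
theorem small_balls (μ : Measure E) [IsFiniteMeasure μ] (hμ0 : ∀ x, μ {x} = 0) (S : Set E) (hS : IsCompact S)
    (hμS : μ Sᶜ = 0) (ε : ℝ) (hε : 0 < ε) :
    ∃ δ : ℝ, 0 < δ ∧ ∀ z, (μ (ball z δ)).toReal ≤ ε := by
  have hz : ∀ z : E, ∃ r > 0, (μ (ball z (2 * r))) < ENNReal.ofReal ε := by
    intro z
    have hcont : Tendsto (fun k : ℕ => μ (ball z (1 / ((k : ℝ) + 1)))) atTop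
        (𝓝 (μ (⋂ k : ℕ, ball z (1 / ((k : ℝ) + 1))))) := by
      apply tendsto_measure_iInter_atTop
      · exact fun k => measurableSet_ball.nullMeasurableSet
      · intro a b hab
        apply ball_subset_ball
        apply one_div_le_one_div_of_le (by positivity)
        have : (a : ℝ) ≤ b := by exact_mod_cast hab
        linarith
      · exact ⟨0, measure_ne_top _ _⟩
    have hint : (⋂ k : ℕ, ball z (1 / ((k : ℝ) + 1))) = {z} := by
      ext w
      simp only [mem_iInter, mem_ball, mem_singleton_iff]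
      constructor
      · intro hw
        rw [← dist_le_zero]
        refine le_of_forall_pos_le_add ?_
        intro η hη
        obtain ⟨k, hk⟩ := exists_nat_one_div_lt hη
        have := hw k
        linarith
      · rintro rfl k
        rw [dist_self]
        positivity
    rw [hint, hμ0] at hcont
    have hev := hcont.eventually (gt_mem_nhds (ENNReal.ofReal_pos.mpr hε))
    obtain ⟨k, hk⟩ := hev.exists
    refine ⟨1 / ((k : ℝ) + 1) / 2, by positivity, ?_⟩
    rw [mul_div_cancel₀ _ (two_ne_zero)]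
    exact hk
  choose r hr hrμ using hz
  obtain ⟨t, -, ht⟩ := hS.elim_nhds_subcover (fun z => ball z (r z))
    (fun z _ => ball_mem_nhds z (hr z))
  have hmin : ∃ δ > 0, ∀ z ∈ t, 2 * δ ≤ r z := by
    by_cases hne : t.Nonempty
    · obtain ⟨z0, hz0, hmin⟩ := t.exists_min_image r hne
      exact ⟨r z0 / 2, by have := hr z0; positivity, fun z hz => by
        have := hmin z hz; linarith⟩
    · rw [Finset.not_nonempty_iff_eq_empty] at hne
      exact ⟨1, one_pos, fun z hz => by simp [hne] at hz⟩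
  obtain ⟨δ, hδ, hδr⟩ := hmin
  refine ⟨δ, hδ, fun z => ?_⟩
  by_cases hzS : (ball z δ ∩ S).Nonempty
  · obtain ⟨s, hsz, hsS⟩ := hzS
    obtain ⟨i, hi, hsi⟩ := mem_iUnion₂.mp (ht hsS)
    have hsub : ball z δ ⊆ ball i (2 * r i) := by
      intro w hw
      rw [mem_ball] at *
      have h1 := dist_triangle w z s
      have h2 := dist_triangle w s i
      have h3 := hδr i hi
      have h4 : dist z s < δ := by rw [dist_comm]; exact hsz
      linarith
    have := (measure_mono hsub).trans (hrμ i).le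
    exact ENNReal.toReal_le_of_le_ofReal hε.le this
  · have h0 : μ (ball z δ) = 0 := by
      apply measure_mono_null _ hμS
      intro w hw hwS
      exact hzS ⟨w, hw, hwS⟩
    rw [h0]
    simpa using hε.le

/-- Averages over translates and dilates are smooth. -/
theorem contDiff_avg (μ : Measure E) [IsFiniteMeasure μ] (S : Set E) (hS : IsCompact S)
    (hμS : μ Sᶜ = 0) (u : E → E) (hu : ContDiff ℝ ((⊤ : ℕ∞) : WithTop ℕ∞) u) :
    ContDiff ℝ ((⊤ : ℕ∞) : WithTop ℕ∞) (fun p : ℝ × E => ∫ y, u (p.2 + p.1 • y) ∂μ) := by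
  obtain ⟨R0, hR0⟩ := hS.isBounded.subset_closedBall (0 : E)
  let R := max R0 0
  have hR : S ⊆ closedBall (0 : E) R := hR0.trans (closedBall_subset_closedBall (le_max_left _ _))
  have hRnn : 0 ≤ R := le_max_right _ _
  let χ : ContDiffBump (0 : E) := ⟨R + 1, R + 2, by linarith, by linarith⟩
  let g : ℝ × E → E → E := fun p t => χ t • u (p.2 - p.1 • t)
  have hg : ContDiff ℝ ((⊤ : ℕ∞) : WithTop ℕ∞) (fun q : (ℝ × E) × E => g q.1 q.2) := by
    have h1 : ContDiff ℝ ((⊤ : ℕ∞) : WithTop ℕ∞) (fun q : (ℝ × E) × E => χ q.2) :=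
      χ.contDiff.comp contDiff_snd
    have h2 : ContDiff ℝ ((⊤ : ℕ∞) : WithTop ℕ∞)
        (fun q : (ℝ × E) × E => q.1.2 - q.1.1 • q.2) :=
      (contDiff_snd.comp contDiff_fst).sub ((contDiff_fst.comp contDiff_fst).smul contDiff_snd)
    exact h1.smul (hu.comp h2)
  have hconv := contDiffOn_convolution_right_with_param (𝕜 := ℝ) (μ := μ)
    (f := fun _ : E => (1 : ℝ)) (n := (⊤ : ℕ∞)) (ContinuousLinearMap.lsmul ℝ ℝ)
    (g := g) (s := univ) (k := tsupport χ) isOpen_univ χ.hasCompactSupport
    (by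
      intro p x _ hx
      simp only [g]
      rw [image_eq_zero_of_notMem_tsupport hx, zero_smul])
    (locallyIntegrable_const _) (by
      refine ContDiff.contDiffOn ?_
      exact hg)
  rw [univ_prod_univ, contDiffOn_univ] at hconv
  have hcomp := hconv.comp (contDiff_id.prodMk (contDiff_const (c := (0 : E)))
    : ContDiff ℝ ((⊤ : ℕ∞) : WithTop ℕ∞) (fun p : ℝ × E => (p, (0 : E))))
  have heq : (fun p : ℝ × E => ∫ y, u (p.2 + p.1 • y) ∂μ) =
      ((fun q : (ℝ × E) × E => ((fun _ : E => (1 : ℝ)) ⋆[ContinuousLinearMap.lsmul ℝ ℝ, μ] g q.1) q.2)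
        ∘ fun p : ℝ × E => (id p, (0 : E))) := by
    funext p
    simp only [Function.comp, convolution, id_eq, ContinuousLinearMap.lsmul_apply, one_smul, g]
    apply integral_congr_ae
    have hae : ∀ᵐ y ∂μ, y ∈ S := by
      rw [ae_iff]
      exact hμS
    filter_upwards [hae] with y hy
    have : χ (0 - y) = 1 := by
      apply χ.one_of_mem_closedBall
      simp only [zero_sub, mem_closedBall_zero_iff, norm_neg]
      have := hR hy
      rw [mem_closedBall_zero_iff] at this
      show ‖y‖ ≤ R + 1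
      linarith
    rw [this, one_smul]
    congr 1
    rw [zero_sub, smul_neg, sub_neg_eq_add]
  rw [heq]
  exact hcomp

omit [FiniteDimensional ℝ E] [MeasurableSpace E] [BorelSpace E] in
/-- A compactly supported smooth map has bounded derivative. -/
theorem exists_bound_fderiv (u : E → E) (hu : ContDiff ℝ 1 u) (K : Set E) (hK : IsCompact K)
    (hid : ∀ x, x ∉ K → u x = 0) :
    ∃ B ≥ 0, ∀ x, ‖fderiv ℝ u x‖ ≤ B ∧ (x ∉ K → fderiv ℝ u x = 0) := by
  have hcont : Continuous (fderiv ℝ u) := hu.continuous_fderiv one_ne_zero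
  obtain ⟨B, hB⟩ := (hK.image hcont).isBounded.subset_closedBall 0
  have hout : ∀ x, x ∉ K → fderiv ℝ u x = 0 := by
    intro x hx
    have hev : u =ᶠ[𝓝 x] fun _ => 0 := by
      filter_upwards [hK.isClosed.isOpen_compl.mem_nhds hx] with z hz
      exact hid z hz
    rw [hev.fderiv_eq]
    simp
  refine ⟨max B 0, le_max_right _ _, fun x => ⟨?_, hout x⟩⟩
  by_cases hx : x ∈ K
  · have := hB (mem_image_of_mem _ hx)
    rw [mem_closedBall_zero_iff] at this
    exact this.trans (le_max_left _ _)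
  · rw [hout x hx, norm_zero]
    exact le_max_right _ _

/-- The derivative of the average is the average of the derivative. -/
theorem fderiv_avg (μ : Measure E) [IsFiniteMeasure μ] (u : E → E) (hu : ContDiff ℝ 1 u)
    (K : Set E) (hK : IsCompact K) (hid : ∀ x, x ∉ K → u x = 0) (r : ℝ) (x v : E) :
    HasFDerivAt (fun z => ∫ y, u (z + r • y) ∂μ) (∫ y, fderiv ℝ u (x + r • y) ∂μ) x ∧
      (∫ y, fderiv ℝ u (x + r • y) ∂μ) v = ∫ y, fderiv ℝ u (x + r • y) v ∂μ := by
  obtain ⟨B, hB0, hB⟩ := exists_bound_fderiv u hu K hK hid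
  have hcont : Continuous (fderiv ℝ u) := hu.continuous_fderiv one_ne_zero
  have hmeas : ∀ z : E, AEStronglyMeasurable (fun y => u (z + r • y)) μ := fun z =>
    (hu.continuous.comp (by fun_prop)).aestronglyMeasurable
  have hmeas' : ∀ z : E, AEStronglyMeasurable (fun y => fderiv ℝ u (z + r • y)) μ := fun z =>
    (hcont.comp (by fun_prop)).aestronglyMeasurable
  have hubd : ∃ C, ∀ z, ‖u z‖ ≤ C := by
    obtain ⟨C, hC⟩ := (hK.image hu.continuous).isBounded.subset_closedBall 0
    refine ⟨max C 0, fun z => ?_⟩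
    by_cases hz : z ∈ K
    · have := hC (mem_image_of_mem _ hz)
      rw [mem_closedBall_zero_iff] at this
      exact this.trans (le_max_left _ _)
    · rw [hid z hz, norm_zero]
      exact le_max_right _ _
  obtain ⟨C, hC⟩ := hubd
  constructor
  · refine hasFDerivAt_integral_of_dominated_of_fderiv_le (μ := μ) (𝕜 := ℝ)
      (F := fun z y => u (z + r • y)) (F' := fun z y => fderiv ℝ u (z + r • y))
      (bound := fun _ => B) (s := univ) univ_mem ?_ ?_ (hmeas' x) ?_ ?_ ?_
    · exact Eventually.of_forall hmeas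
    · exact Integrable.of_bound (hmeas x) C (Eventually.of_forall fun y => hC _)
    · exact Eventually.of_forall fun y z _ => (hB _).1
    · exact integrable_const _
    · refine Eventually.of_forall fun y z _ => ?_
      have h1 : HasFDerivAt u (fderiv ℝ u (z + r • y)) (z + r • y) :=
        (hu.differentiable one_ne_zero _).hasFDerivAt
      have h2 : HasFDerivAt (fun w : E => w + r • y) (ContinuousLinearMap.id ℝ E) z :=
        (hasFDerivAt_id z).add_const _
      have h3 := h1.comp z h2
      rw [ContinuousLinearMap.comp_id] at h3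
      exact h3
  · exact ContinuousLinearMap.integral_apply
      (Integrable.of_bound (hmeas' x) B (Eventually.of_forall fun y => (hB _).1)) v

/-- At large scale the averaged derivative of a compactly supported map is small. -/
theorem exists_large_scale (μ : Measure E) [IsFiniteMeasure μ] (hμ0 : ∀ x, μ {x} = 0) (S : Set E)
    (hS : IsCompact S) (hμS : μ Sᶜ = 0) (u : E → E) (hu : ContDiff ℝ 1 u) (K : Set E)
    (hK : IsCompact K) (hid : ∀ x, x ∉ K → u x = 0) :
    ∃ R : ℝ, 0 < R ∧ ∀ x v, ‖∫ y, fderiv ℝ u (x + R • y) v ∂μ‖ ≤ 1 / 2 * ‖v‖ := by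
  obtain ⟨B, hB0, hB⟩ := exists_bound_fderiv u hu K hK hid
  obtain ⟨R0, hR0⟩ := hK.isBounded.subset_ball (0 : E)
  let R1 := max R0 1
  have hR1 : K ⊆ ball (0 : E) R1 := hR0.trans (ball_subset_ball (le_max_left _ _))
  have hR1p : 0 < R1 := lt_of_lt_of_le one_pos (le_max_right _ _)
  obtain ⟨δ, hδ, hsmall⟩ := small_balls μ hμ0 S hS hμS (1 / (2 * (B + 1))) (by positivity)
  refine ⟨R1 / δ, by positivity, fun x v => ?_⟩
  set R := R1 / δ with hRdef
  have hRp : 0 < R := by positivity
  let z : E := -(R⁻¹ • x)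
  have hind : ∀ y, ‖fderiv ℝ u (x + R • y) v‖ ≤ (ball z δ).indicator (fun _ => B * ‖v‖) y := by
    intro y
    by_cases hy : y ∈ ball z δ
    · rw [indicator_of_mem hy]
      exact (ContinuousLinearMap.le_opNorm _ _).trans
        (mul_le_mul_of_nonneg_right (hB _).1 (norm_nonneg _))
    · rw [indicator_of_notMem hy]
      have hnot : x + R • y ∉ K := by
        intro hin
        apply hy
        have h1 := hR1 hin
        rw [mem_ball_zero_iff] at h1
        rw [mem_ball, dist_eq_norm]
        have h2 : y - z = R⁻¹ • (x + R • y) := by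
          simp only [z]
          rw [smul_add, smul_smul, inv_mul_cancel₀ hRp.ne', one_smul, sub_neg_eq_add, add_comm]
        rw [h2, norm_smul, norm_inv, Real.norm_of_nonneg hRp.le]
        rw [inv_mul_lt_iff₀ hRp, hRdef]
        have : R1 / δ * δ = R1 := by field_simp
        rw [this]
        exact h1
      rw [(hB _).2 hnot]
      simp
  calc ‖∫ y, fderiv ℝ u (x + R • y) v ∂μ‖ ≤ ∫ y, ‖fderiv ℝ u (x + R • y) v‖ ∂μ :=
        norm_integral_le_integral_norm _
    _ ≤ ∫ y, (ball z δ).indicator (fun _ => B * ‖v‖) y ∂μ := by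
        apply integral_mono_of_nonneg (Eventually.of_forall fun _ => norm_nonneg _)
        · exact (integrable_const _).indicator measurableSet_ball
        · exact Eventually.of_forall hind
    _ = (μ (ball z δ)).toReal * (B * ‖v‖) := by
        rw [integral_indicator measurableSet_ball, setIntegral_const, smul_eq_mul]
        rfl
    _ ≤ (1 / (2 * (B + 1))) * (B * ‖v‖) :=
        mul_le_mul_of_nonneg_right (hsmall z) (by positivity)
    _ ≤ 1 / 2 * ‖v‖ := by
        have hv := norm_nonneg v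
        have h1 : (1 / (2 * (B + 1))) * (B * ‖v‖) = (1 / 2 * ‖v‖) * (B / (B + 1)) := by
          field_simp
        rw [h1]
        have h2 : B / (B + 1) ≤ 1 := by
          rw [div_le_one (by linarith)]
          linarith
        calc (1 / 2 * ‖v‖) * (B / (B + 1)) ≤ (1 / 2 * ‖v‖) * 1 :=
              mul_le_mul_of_nonneg_left h2 (by positivity)
          _ = 1 / 2 * ‖v‖ := mul_one _

/-- **The averaging principle.** -/
theorem averaging_principle (f : E → E) (hf : ContDiff ℝ ((⊤ : ℕ∞) : WithTop ℕ∞) f)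
    (hinj : ∀ x v, fderiv ℝ f x v = 0 → v = 0) (K : Set E) (hK : IsCompact K)
    (hid : ∀ x, x ∉ K → f x = x) (μ : Measure E) [IsProbabilityMeasure μ] (hμ0 : ∀ x, μ {x} = 0)
    (S : Set E) (hS : IsCompact S) (hμS : μ Sᶜ = 0)
    (hM : ∀ x, ∀ r > (0 : ℝ), ∀ v, ∫ y, fderiv ℝ f (x + r • y) v ∂μ = 0 → v = 0) :
    ∃ H G : ℝ × E → E,
      ContDiff ℝ ((⊤ : ℕ∞) : WithTop ℕ∞) H ∧ ContDiff ℝ ((⊤ : ℕ∞) : WithTop ℕ∞) G ∧
      (∀ t ∈ Icc (0 : ℝ) 1, ∀ x, H (t, G (t, x)) = x ∧ G (t, H (t, x)) = x) ∧
      (∀ x, H (0, x) = x) ∧ (∀ x, H (1, x) = f x) ∧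
      ∃ K' : Set E, IsCompact K' ∧ ∀ t ∈ Icc (0 : ℝ) 1, ∀ x ∉ K', H (t, x) = x := by
  have h1top : (1 : WithTop ℕ∞) ≤ ((⊤ : ℕ∞) : WithTop ℕ∞) := by
    exact_mod_cast (le_top : (1 : ℕ∞) ≤ ⊤)
  let u : E → E := fun x => f x - x
  have hu : ContDiff ℝ ((⊤ : ℕ∞) : WithTop ℕ∞) u := hf.sub contDiff_id
  have hu1 : ContDiff ℝ 1 u := hu.of_le h1top
  have huK : ∀ x, x ∉ K → u x = 0 := fun x hx => by simp only [u]; rw [hid x hx, sub_self]
  have hfd : ∀ x v, fderiv ℝ f x v = v + fderiv ℝ u x v := by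
    intro x v
    have hfx : DifferentiableAt ℝ f x := (hf.differentiable (by simp)) x
    have : fderiv ℝ u x = fderiv ℝ f x - ContinuousLinearMap.id ℝ E := by
      exact (hfx.hasFDerivAt.sub (hasFDerivAt_id x)).fderiv
    rw [this]
    simp
  obtain ⟨B, hB0, hB⟩ := exists_bound_fderiv u hu1 K hK huK
  have hcont' : Continuous (fderiv ℝ u) := hu1.continuous_fderiv one_ne_zero
  have hintu : ∀ (r : ℝ) (x v : E), Integrable (fun y => fderiv ℝ u (x + r • y) v) μ := by
    intro r x v
    refine Integrable.of_bound (C := B * ‖v‖) ?_ (Eventually.of_forall fun y => ?_)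
    · have : Continuous (fun y => fderiv ℝ u (x + r • y) v) :=
        (hcont'.comp (by fun_prop : Continuous fun y => x + r • y)).clm_apply continuous_const
      exact this.aestronglyMeasurable
    · exact (ContinuousLinearMap.le_opNorm _ _).trans
        (mul_le_mul_of_nonneg_right (hB _).1 (norm_nonneg _))
  have hintf : ∀ (r : ℝ) (x v : E),
      ∫ y, fderiv ℝ f (x + r • y) v ∂μ = v + ∫ y, fderiv ℝ u (x + r • y) v ∂μ := by
    intro r x v
    simp_rw [hfd]
    rw [integral_add (integrable_const _) (hintu r x v)]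
    simp
  obtain ⟨R, hRp, hR⟩ := exists_large_scale μ hμ0 S hS hμS u hu1 K hK huK
  let A : ℝ × E → E := fun p => ∫ y, u (p.2 + p.1 • y) ∂μ
  have hA : ContDiff ℝ ((⊤ : ℕ∞) : WithTop ℕ∞) A := contDiff_avg μ S hS hμS u hu
  let α : ℝ → ℝ := fun t => Real.smoothTransition (2 * t)
  let β : ℝ → ℝ := fun t => Real.smoothTransition (2 * t - 1)
  have hα : ContDiff ℝ ((⊤ : ℕ∞) : WithTop ℕ∞) α :=
    Real.smoothTransition.contDiff.comp (contDiff_const.mul contDiff_id)
  have hβ : ContDiff ℝ ((⊤ : ℕ∞) : WithTop ℕ∞) β :=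
    Real.smoothTransition.contDiff.comp ((contDiff_const.mul contDiff_id).sub contDiff_const)
  let ρ : ℝ → ℝ := fun t => R * (1 - β t)
  have hρ : ContDiff ℝ ((⊤ : ℕ∞) : WithTop ℕ∞) ρ := contDiff_const.mul (contDiff_const.sub hβ)
  let H : ℝ × E → E := fun p => p.2 + α p.1 • A (ρ p.1, p.2)
  have hH : ContDiff ℝ ((⊤ : ℕ∞) : WithTop ℕ∞) H :=
    contDiff_snd.add ((hα.comp contDiff_fst).smul
      (hA.comp ((hρ.comp contDiff_fst).prodMk contDiff_snd)))
  have hα01 : ∀ t, 0 ≤ α t ∧ α t ≤ 1 := fun t =>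
    ⟨Real.smoothTransition.nonneg _, Real.smoothTransition.le_one _⟩
  have hβ01 : ∀ t, 0 ≤ β t ∧ β t ≤ 1 := fun t =>
    ⟨Real.smoothTransition.nonneg _, Real.smoothTransition.le_one _⟩
  have hρ01 : ∀ t, 0 ≤ ρ t ∧ ρ t ≤ R := fun t =>
    ⟨mul_nonneg hRp.le (by linarith [(hβ01 t).2]),
      by have := (hβ01 t).1; simp only [ρ]; nlinarith⟩
  -- the slices
  have hslice : ∀ t x v, fderiv ℝ (fun z => H (t, z)) x v =
      v + α t • ∫ y, fderiv ℝ u (x + ρ t • y) v ∂μ := by
    intro t x v
    obtain ⟨h1, h2⟩ := fderiv_avg μ u hu1 K hK huK (ρ t) x v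
    have h3 : HasFDerivAt (fun z => H (t, z))
        (ContinuousLinearMap.id ℝ E + α t • ∫ y, fderiv ℝ u (x + ρ t • y) ∂μ) x :=
      (hasFDerivAt_id x).add (h1.const_smul (α t))
    rw [h3.fderiv]
    simp only [add_apply, ContinuousLinearMap.id_apply, smul_apply]
    rw [h2]
  have hsliceinj : ∀ t x v, fderiv ℝ (fun z => H (t, z)) x v = 0 → v = 0 := by
    intro t x v hv
    rw [hslice] at hv
    rcases le_total t (1 / 2) with ht | ht
    · have hβt : β t = 0 := Real.smoothTransition.zero_of_nonpos (by linarith)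
      have hρt : ρ t = R := by simp only [ρ]; rw [hβt]; ring
      rw [hρt] at hv
      have hv' : v = -(α t • ∫ y, fderiv ℝ u (x + R • y) v ∂μ) := eq_neg_of_add_eq_zero_left hv
      have hn : ‖v‖ ≤ 1 / 2 * ‖v‖ := by
        calc ‖v‖ = ‖α t • ∫ y, fderiv ℝ u (x + R • y) v ∂μ‖ := by
              conv_lhs => rw [hv']
              rw [norm_neg]
          _ = α t * ‖∫ y, fderiv ℝ u (x + R • y) v ∂μ‖ := by
              rw [norm_smul, Real.norm_of_nonneg (hα01 t).1]
          _ ≤ 1 * ‖∫ y, fderiv ℝ u (x + R • y) v ∂μ‖ :=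
              mul_le_mul_of_nonneg_right (hα01 t).2 (norm_nonneg _)
          _ ≤ 1 / 2 * ‖v‖ := by rw [one_mul]; exact hR x v
      have : ‖v‖ ≤ 0 := by linarith
      exact norm_le_zero_iff.mp this
    · have hαt : α t = 1 := Real.smoothTransition.one_of_one_le (by linarith)
      rw [hαt, one_smul, ← hintf] at hv
      rcases eq_or_lt_of_le (hρ01 t).1 with h0 | hpos
      · rw [← h0] at hv
        simp only [zero_smul, add_zero, integral_const, probReal_univ, one_smul] at hv
        exact hinj x v hv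
      · exact hM x (ρ t) hpos v hv
  -- the common support
  obtain ⟨RK, hRK⟩ := hK.isBounded.subset_closedBall (0 : E)
  obtain ⟨RS, hRS⟩ := hS.isBounded.subset_closedBall (0 : E)
  let K' : Set E := closedBall (0 : E) (max RK 0 + R * max RS 0)
  have hK' : IsCompact K' := isCompact_closedBall _ _
  have hHid : ∀ t x, x ∉ K' → H (t, x) = x := by
    intro t x hx
    have hzero : ∫ y, u (x + ρ t • y) ∂μ = 0 := by
      apply integral_eq_zero_of_ae
      have hae : ∀ᵐ y ∂μ, y ∈ S := by
        rw [ae_iff]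
        exact hμS
      filter_upwards [hae] with y hy
      apply huK
      intro hin
      apply hx
      have h1 := hRK hin
      have h2 := hRS hy
      rw [mem_closedBall_zero_iff] at h1 h2
      rw [mem_closedBall_zero_iff]
      have h3 : x = (x + ρ t • y) - ρ t • y := by abel
      calc ‖x‖ = ‖(x + ρ t • y) - ρ t • y‖ := by rw [← h3]
        _ ≤ ‖x + ρ t • y‖ + ‖ρ t • y‖ := norm_sub_le _ _
        _ ≤ max RK 0 + R * max RS 0 := by
            apply add_le_add (h1.trans (le_max_left _ _))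
            rw [norm_smul, Real.norm_of_nonneg (hρ01 t).1]
            exact mul_le_mul (hρ01 t).2 (h2.trans (le_max_left _ _)) (norm_nonneg _) hRp.le
    simp only [H, A]
    rw [hzero, smul_zero, add_zero]
  obtain ⟨G, hG, hGH⟩ := exists_smooth_inverse H hH K' hK' hHid hsliceinj
  refine ⟨H, G, hH, hG, fun t _ x => hGH t x, ?_, ?_, K', hK', fun t _ x hx => hHid t x hx⟩
  · intro x
    have : α 0 = 0 := Real.smoothTransition.zero_of_nonpos (by simp)
    simp only [H]
    rw [this, zero_smul, add_zero]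
  · intro x
    have h1 : α 1 = 1 := Real.smoothTransition.one_of_one_le (by norm_num)
    have h2 : β 1 = 1 := Real.smoothTransition.one_of_one_le (by norm_num)
    simp only [H, ρ, A]
    rw [h1, h2, one_smul]
    simp [u]

end Pool.Agent.SAV
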