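import Mathlib
import Pool.Agent.SAV.Average

/-!
Symplectic maps: if the complex linear part of the derivative has mean square oscillation less than
one, then the averaged derivative is invertible.
-/

set_option autoImplicit false

open Set Filter Topology Metric MeasureTheory

namespace Pool.Agent.SAV

/-- The space `R^{2n}` with coordinates `(x, y)`. -/
abbrev V (n : ℕ) : Type := (Fin n → ℝ) × (Fin n → ℝ)

/-- The standard symplectic form. -/
def om {n : ℕ} (v w : V n) : ℝ := ∑ i, (v.1 i * w.2 i - v.2 i * w.1 i)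

/-- The standard complex structure `(a, b) ↦ (-b, a)`. -/
def J {n : ℕ} (v : V n) : V n := (-v.2, v.1)

/-- The square of the Euclidean norm. -/
def nsq {n : ℕ} (v : V n) : ℝ := ∑ i, (v.1 i ^ 2 + v.2 i ^ 2)

/-- The complex linear part of the derivative of `f` at `x`, applied to `v`. -/
noncomputable def cpart {n : ℕ} (f : V n → V n) (x v : V n) : V n :=
  (1 / 2 : ℝ) • (fderiv ℝ f x v - J (fderiv ℝ f x (J v)))

/-- The complex antilinear part of the derivative of `f` at `x`, applied to `v`. -/
noncomputable def apart {n : ℕ} (f : V n → V n) (x v : V n) : V n :=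
  (1 / 2 : ℝ) • (fderiv ℝ f x v + J (fderiv ℝ f x (J v)))

variable {n : ℕ}

/-- `J` as a continuous linear map. -/
noncomputable def JL : V n →L[ℝ] V n :=
  (-(ContinuousLinearMap.snd ℝ (Fin n → ℝ) (Fin n → ℝ))).prod
    (ContinuousLinearMap.fst ℝ (Fin n → ℝ) (Fin n → ℝ))

theorem JL_apply (v : V n) : JL v = J v := by
  simp [JL, J]

/-- The Euclidean inner product. -/
def ip (v w : V n) : ℝ := ∑ i, (v.1 i * w.1 i + v.2 i * w.2 i)

/-- The Euclidean inner product with a fixed vector, as a continuous linear map. -/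
noncomputable def ipL (w : V n) : V n →L[ℝ] ℝ :=
  LinearMap.toContinuousLinearMap
    { toFun := fun v => ip v w
      map_add' := by
        intro a b
        simp only [ip, Prod.fst_add, Prod.snd_add, Pi.add_apply]
        rw [← Finset.sum_add_distrib]
        exact Finset.sum_congr rfl fun i _ => by ring
      map_smul' := by
        intro c a
        simp only [ip, Prod.smul_fst, Prod.smul_snd, Pi.smul_apply, smul_eq_mul,
          RingHom.id_apply]
        rw [Finset.mul_sum]
        exact Finset.sum_congr rfl fun i _ => by ring }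

theorem ipL_apply (v w : V n) : ipL w v = ip v w := rfl

theorem nsq_eq_ip (v : V n) : nsq v = ip v v := by
  simp only [nsq, ip]
  exact Finset.sum_congr rfl fun i _ => by ring

theorem nsq_nonneg (v : V n) : 0 ≤ nsq v := by
  simp only [nsq]
  exact Finset.sum_nonneg fun i _ => by positivity

theorem nsq_sub (v w : V n) : nsq (v - w) = nsq v - 2 * ip v w + nsq w := by
  simp only [nsq, ip, Prod.fst_sub, Prod.snd_sub, Pi.sub_apply]
  rw [Finset.mul_sum, ← Finset.sum_sub_distrib, ← Finset.sum_add_distrib]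
  exact Finset.sum_congr rfl fun i _ => by ring

theorem nsq_neg (v : V n) : nsq (-v) = nsq v := by
  simp only [nsq, Prod.fst_neg, Prod.snd_neg, Pi.neg_apply]
  exact Finset.sum_congr rfl fun i _ => by ring

theorem continuous_nsq : Continuous (nsq : V n → ℝ) := by
  unfold nsq
  fun_prop

/-- The pointwise identity `|C v|^2 - |A v|^2 = omega(D v, D J v)`. -/
theorem nsq_cpart_sub_nsq_apart (f : V n → V n) (x v : V n) :
    nsq (cpart f x v) - nsq (apart f x v) = om (fderiv ℝ f x v) (fderiv ℝ f x (J v)) := by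
  simp only [nsq, cpart, apart, om, J, Prod.smul_fst, Prod.smul_snd, Prod.fst_sub, Prod.snd_sub,
    Prod.fst_add, Prod.snd_add, Pi.smul_apply, Pi.sub_apply, Pi.add_apply, Pi.neg_apply,
    smul_eq_mul]
  rw [← Finset.sum_sub_distrib]
  exact Finset.sum_congr rfl fun i _ => by ring

theorem om_J (v : V n) : om v (J v) = nsq v := by
  simp only [om, J, nsq, Pi.neg_apply]
  exact Finset.sum_congr rfl fun i _ => by ring

theorem cpart_add_apart (f : V n → V n) (x v : V n) :
    cpart f x v + apart f x v = fderiv ℝ f x v := by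
  simp only [cpart, apart]
  rw [← smul_add]
  have : fderiv ℝ f x v - J (fderiv ℝ f x (J v)) + (fderiv ℝ f x v + J (fderiv ℝ f x (J v))) =
      (2 : ℝ) • fderiv ℝ f x v := by
    rw [two_smul]
    abel
  rw [this, smul_smul]
  norm_num

/-- Mean square deviation from the mean. -/
theorem variance_formula (μ : Measure (V n)) [IsProbabilityMeasure μ] (P : V n → V n)
    (hP : Continuous P) (C : ℝ) (hC : ∀ y, ‖P y‖ ≤ C) :
    Integrable (fun y => nsq (P y)) μ ∧
    ∫ y, nsq (P y - ∫ z, P z ∂μ) ∂μ = ∫ y, nsq (P y) ∂μ - nsq (∫ z, P z ∂μ) := by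
  have hPi : Integrable P μ :=
    Integrable.of_bound hP.aestronglyMeasurable C (Eventually.of_forall hC)
  have hnb : ∃ D, ∀ w : V n, ‖w‖ ≤ C → ‖nsq w‖ ≤ D := by
    obtain ⟨D, hD⟩ := ((isCompact_closedBall (0 : V n) C).image
      (continuous_nsq (n := n))).isBounded.subset_closedBall 0
    refine ⟨D, fun w hw => ?_⟩
    have := hD (mem_image_of_mem nsq (mem_closedBall_zero_iff.mpr hw))
    simpa using this
  obtain ⟨D, hD⟩ := hnb
  have hn : Integrable (fun y => nsq (P y)) μ :=
    Integrable.of_bound (continuous_nsq.comp hP).aestronglyMeasurable D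
      (Eventually.of_forall fun y => hD _ (hC y))
  refine ⟨hn, ?_⟩
  set m := ∫ z, P z ∂μ with hm
  have hip : ∫ y, ip (P y) m ∂μ = ip m m := by
    have := ContinuousLinearMap.integral_comp_comm (ipL m) hPi
    simpa [ipL_apply, ← hm] using this
  have hipi : Integrable (fun y => ip (P y) m) μ := by
    have := (ipL m).integrable_comp hPi
    simpa [ipL_apply] using this
  simp_rw [nsq_sub]
  have e1 : ∫ y, (nsq (P y) - 2 * ip (P y) m + nsq m) ∂μ =
      ∫ y, (nsq (P y) - 2 * ip (P y) m) ∂μ + ∫ _, nsq m ∂μ :=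
    integral_add (hn.sub (hipi.const_mul 2)) (integrable_const _)
  have e2 : ∫ y, (nsq (P y) - 2 * ip (P y) m) ∂μ = ∫ y, nsq (P y) ∂μ - ∫ y, 2 * ip (P y) m ∂μ :=
    integral_sub hn (hipi.const_mul 2)
  rw [e1, e2, integral_const_mul, hip, ← nsq_eq_ip]
  simp
  ring

/-- The variance of a bounded continuous map is nonnegative. -/
theorem variance_nonneg (μ : Measure (V n)) [IsProbabilityMeasure μ] (P : V n → V n)
    (hP : Continuous P) (C : ℝ) (hC : ∀ y, ‖P y‖ ≤ C) :
    nsq (∫ z, P z ∂μ) ≤ ∫ y, nsq (P y) ∂μ := by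
  have h := (variance_formula μ P hP C hC).2
  have h0 : 0 ≤ ∫ y, nsq (P y - ∫ z, P z ∂μ) ∂μ := integral_nonneg fun y => nsq_nonneg _
  linarith

/-- **Oscillation criterion.** For a symplectic map, if the complex linear part of the derivative
has mean square oscillation less than one, the averaged derivative is invertible. -/
theorem average_injective_of_osc (μ : Measure (V n)) [IsProbabilityMeasure μ] (f : V n → V n)
    (hf : ContDiff ℝ 1 f) (K : Set (V n)) (hK : IsCompact K) (hid : ∀ x, x ∉ K → f x = x)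
    (hsymp : ∀ x v w, om (fderiv ℝ f x v) (fderiv ℝ f x w) = om v w) (x : V n) (r : ℝ) (v : V n)
    (hosc : v ≠ 0 →
      ∫ y, nsq (cpart f (x + r • y) v - ∫ z, cpart f (x + r • z) v ∂μ) ∂μ < nsq v)
    (h0 : ∫ y, fderiv ℝ f (x + r • y) v ∂μ = 0) : v = 0 := by
  by_contra hv
  have hosc' := hosc hv
  -- boundedness
  have hcont : Continuous (fderiv ℝ f) := hf.continuous_fderiv one_ne_zero
  have hbd : ∀ w : V n, ∃ C, ∀ z, ‖fderiv ℝ f z w‖ ≤ C := by
    intro w
    obtain ⟨B, hB0, hB⟩ := exists_bound_fderiv (fun z => f z - z) (hf.sub contDiff_id) K hK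
      (fun z hz => by rw [hid z hz, sub_self])
    refine ⟨(B + 1) * ‖w‖, fun z => ?_⟩
    have hfz : DifferentiableAt ℝ f z := (hf.differentiable one_ne_zero) z
    have h1 : fderiv ℝ (fun z => f z - z) z = fderiv ℝ f z - ContinuousLinearMap.id ℝ (V n) :=
      (hfz.hasFDerivAt.sub (hasFDerivAt_id z)).fderiv
    have h2 : fderiv ℝ f z w = fderiv ℝ (fun z => f z - z) z w + w := by
      rw [h1]
      simp
    rw [h2]
    calc ‖fderiv ℝ (fun z => f z - z) z w + w‖ ≤ ‖fderiv ℝ (fun z => f z - z) z w‖ + ‖w‖ :=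
          norm_add_le _ _
      _ ≤ B * ‖w‖ + ‖w‖ := by
          gcongr
          exact (ContinuousLinearMap.le_opNorm _ _).trans
            (mul_le_mul_of_nonneg_right (hB z).1 (norm_nonneg _))
      _ = (B + 1) * ‖w‖ := by ring
  obtain ⟨C1, hC1⟩ := hbd v
  obtain ⟨C2, hC2⟩ := hbd (J v)
  have hJn : ∀ w : V n, ‖J w‖ ≤ ‖w‖ := by
    intro w
    simp only [J, Prod.norm_def, norm_neg]
    rw [max_comm]
  let P : V n → V n := fun y => cpart f (x + r • y) v
  let Q : V n → V n := fun y => apart f (x + r • y) v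
  have hline : Continuous fun y : V n => x + r • y := by fun_prop
  have hD1 : Continuous fun y : V n => fderiv ℝ f (x + r • y) v :=
    (hcont.comp hline).clm_apply continuous_const
  have hD2 : Continuous fun y : V n => J (fderiv ℝ f (x + r • y) (J v)) := by
    have : Continuous fun y : V n => JL (fderiv ℝ f (x + r • y) (J v)) :=
      JL.continuous.comp ((hcont.comp hline).clm_apply continuous_const)
    simpa [JL_apply] using this
  have hPc : Continuous P := by
    have := (hD1.sub hD2).const_smul (1 / 2 : ℝ)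
    exact this
  have hQc : Continuous Q := by
    have := (hD1.add hD2).const_smul (1 / 2 : ℝ)
    exact this
  have hPb : ∀ y, ‖P y‖ ≤ C1 + C2 := by
    intro y
    have h1 := hC1 (x + r • y)
    have h2 := (hJn _).trans (hC2 (x + r • y))
    have h3 : ‖P y‖ ≤ ‖(1 / 2 : ℝ)‖ * (C1 + C2) := by
      show ‖(1 / 2 : ℝ) • (_ - _)‖ ≤ _
      rw [norm_smul]
      gcongr
      exact (norm_sub_le _ _).trans (add_le_add h1 h2)
    have h4 : 0 ≤ C1 + C2 := add_nonneg ((norm_nonneg _).trans h1) ((norm_nonneg _).trans h2)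
    have h5 : ‖(1 / 2 : ℝ)‖ = 1 / 2 := by norm_num
    rw [h5] at h3
    linarith
  have hQb : ∀ y, ‖Q y‖ ≤ C1 + C2 := by
    intro y
    have h1 := hC1 (x + r • y)
    have h2 := (hJn _).trans (hC2 (x + r • y))
    have h3 : ‖Q y‖ ≤ ‖(1 / 2 : ℝ)‖ * (C1 + C2) := by
      show ‖(1 / 2 : ℝ) • (_ + _)‖ ≤ _
      rw [norm_smul]
      gcongr
      exact (norm_add_le _ _).trans (add_le_add h1 h2)
    have h4 : 0 ≤ C1 + C2 := add_nonneg ((norm_nonneg _).trans h1) ((norm_nonneg _).trans h2)
    have h5 : ‖(1 / 2 : ℝ)‖ = 1 / 2 := by norm_num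
    rw [h5] at h3
    linarith
  have hPi : Integrable P μ :=
    Integrable.of_bound hPc.aestronglyMeasurable _ (Eventually.of_forall hPb)
  have hQi : Integrable Q μ :=
    Integrable.of_bound hQc.aestronglyMeasurable _ (Eventually.of_forall hQb)
  obtain ⟨hPn, hPvar⟩ := variance_formula μ P hPc _ hPb
  obtain ⟨hQn, -⟩ := variance_formula μ Q hQc _ hQb
  have hQvar := variance_nonneg μ Q hQc _ hQb
  -- pointwise identity
  have hpt : ∀ y, nsq (P y) = nsq v + nsq (Q y) := by
    intro y
    have h1 := nsq_cpart_sub_nsq_apart f (x + r • y) v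
    rw [hsymp, om_J] at h1
    simp only [P, Q]
    linarith
  have hsum : ∫ y, P y ∂μ = -∫ y, Q y ∂μ := by
    have h1 : ∫ y, P y ∂μ + ∫ y, Q y ∂μ = 0 := by
      rw [← integral_add hPi hQi, ← h0]
      apply integral_congr_ae
      exact Eventually.of_forall fun y => cpart_add_apart f (x + r • y) v
    exact eq_neg_of_add_eq_zero_left h1
  have hint : ∫ y, nsq (P y) ∂μ = nsq v + ∫ y, nsq (Q y) ∂μ := by
    simp_rw [hpt]
    rw [integral_add (integrable_const _) hQn]
    simp
  have h6 : ∫ y, nsq (P y - ∫ z, P z ∂μ) ∂μ < nsq v := hosc'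
  rw [hPvar, hint, hsum, nsq_neg] at h6
  linarith

end Pool.Agent.SAV
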