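import Mathlib
import Pool.Agent.SAV.Osc
import Pool.Agent.SAV.Ball

/-!
The Lipschitz gap: symplectic maps with small Lipschitz constant have invertible ball averages of
the derivative.
-/

set_option autoImplicit false

open Set Filter Topology Metric MeasureTheory

namespace Pool.Agent.SAV

/-- The constant `(π / 2) * (2n choose n) / 4^n`. -/
noncomputable def bet (n : ℕ) : ℝ := Real.pi / 2 * ((n.centralBinom : ℝ) / 4 ^ n)

theorem vol_eq (k : ℕ) : vol k = √Real.pi ^ k / Real.Gamma (k / 2 + 1) := by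
  have h := MeasureTheory.volume_sum_rpow_lt_one (Fin k) (p := 2) one_le_two
  have hset : eball k = {x : Fin k → ℝ | ∑ i, |x i| ^ (2 : ℝ) < 1} := by
    ext x
    simp only [eball, mem_ofPred_eq]
    have : ∀ i, |x i| ^ (2 : ℝ) = x i ^ 2 := by
      intro i
      rw [Real.rpow_two, sq_abs]
    simp_rw [this]
  have hΓ : Real.Gamma (1 / 2 + 1) = √Real.pi / 2 := by
    rw [Real.Gamma_add_one (by norm_num), Real.Gamma_one_half_eq]
    ring
  have hΓ' : 2 * Real.Gamma (1 / 2 + 1) = √Real.pi := by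
    rw [hΓ]
    ring
  unfold vol
  rw [hset, h, hΓ', Fintype.card_fin]
  rw [ENNReal.toReal_ofReal]
  have : 0 < Real.Gamma ((k : ℝ) / 2 + 1) := Real.Gamma_pos_of_pos (by positivity)
  positivity

theorem vol_pos (k : ℕ) : 0 < vol k := by
  rw [vol_eq]
  have h1 : 0 < Real.Gamma ((k : ℝ) / 2 + 1) := Real.Gamma_pos_of_pos (by positivity)
  have h2 : 0 < √Real.pi := Real.sqrt_pos.mpr Real.pi_pos
  positivity

theorem central_ratio (l : ℕ) :
    ((l + 1).centralBinom : ℝ) / 4 ^ (l + 1) =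
      (Nat.doubleFactorial (2 * l + 1) : ℝ) / (2 ^ (l + 1) * (l + 1).factorial) := by
  have h1 : ((l + 1).centralBinom : ℝ) * ((l + 1).factorial * (l + 1).factorial) =
      (2 * (l + 1)).factorial := by
    have := Nat.choose_mul_factorial_mul_factorial (show l + 1 ≤ 2 * (l + 1) by omega)
    rw [show 2 * (l + 1) - (l + 1) = l + 1 by omega] at this
    rw [← Nat.centralBinom_eq_two_mul_choose] at this
    rw [← mul_assoc]
    exact_mod_cast this
  have h2 : ((2 * (l + 1)).factorial : ℝ) =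
      (2 ^ (l + 1) * (l + 1).factorial) * Nat.doubleFactorial (2 * l + 1) := by
    have e1 : (2 * (l + 1)).factorial = (2 * (l + 1)).doubleFactorial * (2 * l + 1).doubleFactorial := by
      have := Nat.factorial_eq_mul_doubleFactorial (2 * l + 1)
      rw [show 2 * (l + 1) = 2 * l + 1 + 1 by ring]
      exact this
    rw [e1, Nat.doubleFactorial_two_mul]
    push_cast
    ring
  have hf : ((l + 1).factorial : ℝ) ≠ 0 := by exact_mod_cast (Nat.factorial_pos _).ne'
  have h4 : (4 : ℝ) ^ (l + 1) = 2 ^ (l + 1) * 2 ^ (l + 1) := by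
    rw [← mul_pow]
    norm_num
  rw [h4]
  have h2' : (2 : ℝ) ^ (l + 1) ≠ 0 := by positivity
  rw [div_eq_div_iff (by positivity) (by positivity)]
  have h3 : ((l + 1).centralBinom : ℝ) * ((l + 1).factorial * (l + 1).factorial) =
      (2 ^ (l + 1) * (l + 1).factorial) * Nat.doubleFactorial (2 * l + 1) := h1.trans h2
  have h5 : ((l + 1).centralBinom : ℝ) * (l + 1).factorial =
      2 ^ (l + 1) * Nat.doubleFactorial (2 * l + 1) := by
    apply mul_right_cancel₀ hf
    linarith
  calc ((l + 1).centralBinom : ℝ) * (2 ^ (l + 1) * (l + 1).factorial) =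
        2 ^ (l + 1) * (((l + 1).centralBinom : ℝ) * (l + 1).factorial) := by ring
    _ = 2 ^ (l + 1) * (2 ^ (l + 1) * Nat.doubleFactorial (2 * l + 1)) := by rw [h5]
    _ = _ := by ring

theorem vol_ratio (l : ℕ) : vol (2 * l + 1 + 1) = 2 * vol (2 * l + 1) * bet (l + 1) := by
  unfold bet
  rw [central_ratio, vol_eq, vol_eq]
  have hπ : √Real.pi * √Real.pi = Real.pi := Real.mul_self_sqrt Real.pi_pos.le
  have hπ0 : √Real.pi ≠ 0 := (Real.sqrt_pos.mpr Real.pi_pos).ne'
  have g1 : Real.Gamma (((2 * l + 1 + 1 : ℕ) : ℝ) / 2 + 1) = (l + 1).factorial := by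
    rw [← Real.Gamma_nat_eq_factorial]
    congr 1
    push_cast
    ring
  have g2 : Real.Gamma (((2 * l + 1 : ℕ) : ℝ) / 2 + 1) =
      (Nat.doubleFactorial (2 * l + 1) : ℝ) * √Real.pi / 2 ^ (l + 1) := by
    have := Real.Gamma_nat_add_half (l + 1)
    rw [show 2 * (l + 1) - 1 = 2 * l + 1 by omega] at this
    rw [← this]
    congr 1
    push_cast
    ring
  rw [g1, g2]
  have hf : ((l + 1).factorial : ℝ) ≠ 0 := by exact_mod_cast (Nat.factorial_pos _).ne'
  have hd : (Nat.doubleFactorial (2 * l + 1) : ℝ) ≠ 0 := by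
    exact_mod_cast (Nat.doubleFactorial_pos _).ne'
  have h2' : (2 : ℝ) ^ (l + 1) ≠ 0 := by positivity
  have hpw : √Real.pi ^ (2 * l + 1 + 1) = √Real.pi ^ (2 * l) * Real.pi := by
    rw [pow_succ, pow_succ, mul_assoc, hπ]
  have hpw' : √Real.pi ^ (2 * l + 1) = √Real.pi ^ (2 * l) * √Real.pi := pow_succ _ _
  rw [hpw, hpw']
  field_simp

variable {n : ℕ}

/-- The Euclidean model of `R^{2n}`. -/
abbrev W (n : ℕ) : Type := EuclideanSpace ℝ (Fin n ⊕ Fin n)

/-- The linear identification of `R^{2n}` with its Euclidean model. -/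
noncomputable def tau (n : ℕ) : V n ≃L[ℝ] W n :=
  ((LinearEquiv.sumArrowLequivProdArrow (Fin n) (Fin n) ℝ ℝ).symm.trans
    (WithLp.linearEquiv 2 ℝ (Fin n ⊕ Fin n → ℝ)).symm).toContinuousLinearEquiv

theorem tau_norm_sq (v : V n) : ‖tau n v‖ ^ 2 = nsq v := by
  rw [EuclideanSpace.norm_sq_eq, Fintype.sum_sum_type]
  simp only [nsq, Finset.sum_add_distrib, Real.norm_eq_abs, sq_abs]
  rfl

theorem nsq_pos {v : V n} (hv : v ≠ 0) : 0 < nsq v := by
  rw [← tau_norm_sq]
  have : tau n v ≠ 0 := by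
    intro h
    exact hv ((tau n).map_eq_zero_iff.mp h)
  have := norm_pos_iff.mpr this
  positivity

theorem nsq_smul (c : ℝ) (v : V n) : nsq (c • v) = c ^ 2 * nsq v := by
  simp only [nsq, Prod.smul_fst, Prod.smul_snd, Pi.smul_apply, smul_eq_mul, Finset.mul_sum]
  exact Finset.sum_congr rfl fun i _ => by ring

theorem nsq_J (v : V n) : nsq (J v) = nsq v := by
  simp only [nsq, J, Pi.neg_apply]
  exact Finset.sum_congr rfl fun i _ => by ring

/-- Cauchy inequality for the symplectic form. -/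
theorem om_sq_le (a b : V n) : om a b ^ 2 ≤ nsq a * nsq b := by
  have h1 : om a b = inner ℝ (tau n (J a)) (tau n b) := by
    rw [PiLp.inner_apply, Fintype.sum_sum_type]
    simp only [om, Finset.sum_sub_distrib]
    have e1 : ∀ i, inner ℝ ((tau n (J a)) (Sum.inl i)) ((tau n b) (Sum.inl i)) =
        -(a.2 i * b.1 i) := by
      intro i
      show inner ℝ (-(a.2 i)) (b.1 i) = _
      simp [mul_comm]
    have e2 : ∀ i, inner ℝ ((tau n (J a)) (Sum.inr i)) ((tau n b) (Sum.inr i)) =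
        a.1 i * b.2 i := by
      intro i
      show inner ℝ (a.1 i) (b.2 i) = _
      simp [mul_comm]
    simp_rw [e1, e2]
    rw [Finset.sum_neg_distrib]
    ring
  have h2 := abs_real_inner_le_norm (tau n (J a)) (tau n b)
  rw [h1]
  calc (inner ℝ (tau n (J a)) (tau n b)) ^ 2 = |inner ℝ (tau n (J a)) (tau n b)| ^ 2 :=
        (sq_abs _).symm
    _ ≤ (‖tau n (J a)‖ * ‖tau n b‖) ^ 2 := by gcongr
    _ = nsq a * nsq b := by
        rw [mul_pow, tau_norm_sq, tau_norm_sq, nsq_J]

/-- A symplectic linear map expanding lengths by at most `L` contracts them by at most `L`. -/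
theorem symplectic_lower (ψ : V n →L[ℝ] V n) (hψ : ∀ v w, om (ψ v) (ψ w) = om v w) (κ : ℝ)
    (hκ : ∀ v, nsq (ψ v) ≤ κ * nsq v) (v : V n) : nsq v ≤ κ * nsq (ψ v) := by
  by_cases hv : v = 0
  · subst hv
    simp [nsq]
  have h1 := om_sq_le (ψ v) (ψ (J v))
  rw [hψ, om_J] at h1
  have h2 := hκ (J v)
  rw [nsq_J] at h2
  have h3 := nsq_pos hv
  have h4 := nsq_nonneg (ψ v)
  have h5 : nsq v ^ 2 ≤ nsq (ψ v) * (κ * nsq v) :=
    h1.trans (mul_le_mul_of_nonneg_left h2 h4)
  have h6 : nsq v * nsq v ≤ (κ * nsq (ψ v)) * nsq v := by nlinarith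
  exact le_of_mul_le_mul_right h6 h3

/-- The global Lipschitz estimate. -/
theorem nsq_lipschitz (f : V n → V n) (hf : ContDiff ℝ 1 f) (L : ℝ) (hL : 0 ≤ L)
    (hLip : ∀ x v, nsq (fderiv ℝ f x v) ≤ L ^ 2 * nsq v) (x y : V n) :
    nsq (f x - f y) ≤ L ^ 2 * nsq (x - y) := by
  let F : W n → W n := fun w => tau n (f ((tau n).symm w))
  have hfd : ∀ w, HasFDerivAt F ((tau n : V n →L[ℝ] W n).comp
      ((fderiv ℝ f ((tau n).symm w)).comp ((tau n).symm : W n →L[ℝ] V n))) w := by
    intro w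
    have h1 : HasFDerivAt f (fderiv ℝ f ((tau n).symm w)) ((tau n).symm w) :=
      (hf.differentiable one_ne_zero _).hasFDerivAt
    exact (tau n).hasFDerivAt.comp w (h1.comp w (tau n).symm.hasFDerivAt)
  have hbound : ∀ w ∈ (univ : Set (W n)), ‖(tau n : V n →L[ℝ] W n).comp
      ((fderiv ℝ f ((tau n).symm w)).comp ((tau n).symm : W n →L[ℝ] V n))‖ ≤ L := by
    intro w _
    refine ContinuousLinearMap.opNorm_le_bound _ hL fun u => ?_
    have h2 : ‖tau n (fderiv ℝ f ((tau n).symm w) ((tau n).symm u))‖ ^ 2 ≤ (L * ‖u‖) ^ 2 := by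
      rw [tau_norm_sq]
      refine (hLip _ _).trans ?_
      rw [← tau_norm_sq, (tau n).apply_symm_apply, mul_pow]
    exact abs_le_of_sq_le_sq' h2 (by positivity) |>.2
  have hmv := Convex.norm_image_sub_le_of_norm_hasFDerivWithin_le (𝕜 := ℝ) (f := F)
    (fun w _ => (hfd w).hasFDerivWithinAt) hbound convex_univ (mem_univ (tau n y))
    (mem_univ (tau n x))
  have h3 : F (tau n x) - F (tau n y) = tau n (f x - f y) := by
    simp only [F, ContinuousLinearEquiv.symm_apply_apply, map_sub]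
  rw [h3, ← map_sub] at hmv
  have h4 : ‖tau n (f x - f y)‖ ^ 2 ≤ (L * ‖tau n (x - y)‖) ^ 2 := by
    gcongr
  rw [mul_pow, tau_norm_sq, tau_norm_sq] at h4
  exact h4

/-- An isometric linear parametrisation of `R^{2n}` with prescribed first direction. -/
theorem exists_frame (l : ℕ) (v : V (l + 1)) (hv : v ≠ 0) :
    ∃ P : (Fin (2 * l + 1 + 1) → ℝ) ≃L[ℝ] V (l + 1),
      (∀ x, nsq (P x) = ∑ i, x i ^ 2) ∧ ∃ c : ℝ, c ≠ 0 ∧ v = c • P (Pi.single 0 1) := by
  let w : W (l + 1) := (‖tau (l + 1) v‖)⁻¹ • tau (l + 1) v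
  have hτv : tau (l + 1) v ≠ 0 := fun h => hv ((tau (l + 1)).map_eq_zero_iff.mp h)
  have hnw : ‖w‖ = 1 := by
    rw [norm_smul, norm_inv, norm_norm]
    exact inv_mul_cancel₀ (norm_ne_zero_iff.mpr hτv)
  have hcard : Module.finrank ℝ (W (l + 1)) = Fintype.card (Fin (2 * l + 1 + 1)) := by
    rw [finrank_euclideanSpace, Fintype.card_sum, Fintype.card_fin, Fintype.card_fin]
    ring
  obtain ⟨b, hb⟩ := Orthonormal.exists_orthonormalBasis_extension_of_card_eq (𝕜 := ℝ)
    (E := W (l + 1)) (ι := Fin (2 * l + 1 + 1)) hcard (v := fun _ => w) (s := {0}) (by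
      constructor
      · rintro ⟨i, hi⟩
        simpa using hnw
      · rintro ⟨i, hi⟩ ⟨j, hj⟩ hij
        exfalso
        apply hij
        simp only [mem_singleton_iff] at hi hj
        subst hi hj
        rfl)
  have hb0 : b 0 = w := hb 0 rfl
  let P : (Fin (2 * l + 1 + 1) → ℝ) ≃L[ℝ] V (l + 1) :=
    ((EuclideanSpace.equiv (Fin (2 * l + 1 + 1)) ℝ).symm.trans
      b.repr.symm.toContinuousLinearEquiv).trans (tau (l + 1)).symm
  refine ⟨P, ?_, ‖tau (l + 1) v‖, norm_ne_zero_iff.mpr hτv, ?_⟩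
  · intro x
    rw [← tau_norm_sq]
    have : tau (l + 1) (P x) = b.repr.symm ((EuclideanSpace.equiv _ ℝ).symm x) := by
      simp [P]
    rw [this, LinearIsometryEquiv.norm_map, EuclideanSpace.norm_sq_eq]
    simp
  · have : tau (l + 1) (P (Pi.single 0 1)) = w := by
      have e1 : tau (l + 1) (P (Pi.single 0 1)) =
          b.repr.symm ((EuclideanSpace.equiv _ ℝ).symm (Pi.single 0 1)) := by
        simp [P]
      rw [e1, ← hb0, ← b.repr_symm_single]
      rfl
    have h2 : tau (l + 1) (‖tau (l + 1) v‖ • P (Pi.single 0 1)) = tau (l + 1) v := by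
      rw [map_smul, this]
      simp only [w]
      rw [smul_smul, mul_inv_cancel₀ (norm_ne_zero_iff.mpr hτv), one_smul]
    exact ((tau (l + 1)).injective h2).symm

theorem haarV (n : ℕ) : (volume : Measure (V n)).IsAddHaarMeasure :=
  Measure.prod.instIsAddHaarMeasure (volume : Measure (Fin n → ℝ)) (volume : Measure (Fin n → ℝ))

/-- The Euclidean unit ball of `R^{2n}`. -/
def ubl (n : ℕ) : Set (V n) := {v | nsq v < 1}

theorem isOpen_ubl (n : ℕ) : IsOpen (ubl n) := isOpen_lt continuous_nsq continuous_const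

/-- Vanishing of an integral over the unit ball does not depend on the isometric coordinates. -/
theorem integral_ubl_eq_zero (l : ℕ) (P : (Fin (2 * l + 1 + 1) → ℝ) ≃L[ℝ] V (l + 1))
    (hP : ∀ x, nsq (P x) = ∑ i, x i ^ 2) (G : V (l + 1) → V (l + 1))
    (h0 : ∫ y in ubl (l + 1), G y = 0) : ∫ x in eball (2 * l + 1 + 1), G (P x) = 0 := by
  have hme : MeasurableEmbedding P := P.toHomeomorph.measurableEmbedding
  have hset : eball (2 * l + 1 + 1) = P ⁻¹' ubl (l + 1) := by
    ext x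
    simp only [eball, ubl, mem_preimage, mem_ofPred_eq, hP]
  have h1 : ∫ x in eball (2 * l + 1 + 1), G (P x) =
      ∫ y in ubl (l + 1), G y ∂(Measure.map P volume) := by
    rw [hset, hme.setIntegral_map]
  have : (Measure.map P (volume : Measure (Fin (2 * l + 1 + 1) → ℝ))).IsAddHaarMeasure :=
    P.isAddHaarMeasure_map volume
  have := haarV (l + 1)
  have h2 := Measure.isAddLeftInvariant_eq_smul (Measure.map P volume)
    (volume : Measure (V (l + 1)))
  rw [h1, h2]
  rw [Measure.restrict_smul, integral_smul_nnreal_measure, h0, smul_zero]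

end Pool.Agent.SAV
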