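import Mathlib
import Pool.Agent.SAV.Lip

/-!
Compactly supported symplectomorphisms of `R^{2n}`, smooth isotopies with uniform compact support,
and the two passages from averages to isotopies used in the results.
-/

set_option autoImplicit false

open Set Filter Topology Metric MeasureTheory

namespace Pool.Agent.SAV

/-- `f` is a compactly supported symplectomorphism of `R^{2n}` with inverse `g`. -/
def CompactSymp (n : ℕ) (f g : V n → V n) : Prop :=
  ContDiff ℝ ((⊤ : ℕ∞) : WithTop ℕ∞) f ∧ ContDiff ℝ ((⊤ : ℕ∞) : WithTop ℕ∞) g ∧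
  (∀ x, g (f x) = x) ∧ (∀ x, f (g x) = x) ∧
  (∀ x v w : V n, om (fderiv ℝ f x v) (fderiv ℝ f x w) = om v w) ∧
  ∃ K : Set (V n), IsCompact K ∧ ∀ x ∉ K, f x = x

/-- There is a smooth isotopy, through diffeomorphisms equal to the identity off one compact set,
from the identity to `f`. -/
def SmoothlyIsotopic (n : ℕ) (f : V n → V n) : Prop :=
  ∃ H G : ℝ × V n → V n,
    ContDiff ℝ ((⊤ : ℕ∞) : WithTop ℕ∞) H ∧ ContDiff ℝ ((⊤ : ℕ∞) : WithTop ℕ∞) G ∧
    (∀ t ∈ Icc (0 : ℝ) 1, ∀ x, H (t, G (t, x)) = x ∧ G (t, H (t, x)) = x) ∧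
    (∀ x, H (0, x) = x) ∧ (∀ x, H (1, x) = f x) ∧
    ∃ K : Set (V n), IsCompact K ∧ ∀ t ∈ Icc (0 : ℝ) 1, ∀ x ∉ K, H (t, x) = x

variable {n : ℕ}

theorem symp_injective {f g : V n → V n} (h : CompactSymp n f g) (x v : V n)
    (hv : fderiv ℝ f x v = 0) : v = 0 := by
  obtain ⟨hf, hg, hgf, -, -, -⟩ := h
  have h1 : HasFDerivAt f (fderiv ℝ f x) x := (hf.differentiable (by simp) x).hasFDerivAt
  have h2 : HasFDerivAt g (fderiv ℝ g (f x)) (f x) :=
    (hg.differentiable (by simp) (f x)).hasFDerivAt
  have h3 := h2.comp x h1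
  have h4 : g ∘ f = id := by
    funext z
    exact hgf z
  rw [h4] at h3
  have h5 : (fderiv ℝ g (f x)).comp (fderiv ℝ f x) = ContinuousLinearMap.id ℝ (V n) :=
    h3.unique (hasFDerivAt_id x)
  have h6 : ((fderiv ℝ g (f x)).comp (fderiv ℝ f x)) v = v := by
    rw [h5]
    rfl
  rw [← h6, ContinuousLinearMap.comp_apply, hv, map_zero]

/-- The averaging principle for symplectomorphisms. -/
theorem isotopic_of_averages {f g : V n → V n} (h : CompactSymp n f g) (μ : Measure (V n))
    [IsProbabilityMeasure μ] (hμ0 : ∀ x, μ {x} = 0) (S : Set (V n)) (hS : IsCompact S)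
    (hμS : μ Sᶜ = 0)
    (hM : ∀ x, ∀ r > (0 : ℝ), ∀ v, ∫ y, fderiv ℝ f (x + r • y) v ∂μ = 0 → v = 0) :
    SmoothlyIsotopic n f := by
  obtain ⟨K, hK, hid⟩ := h.2.2.2.2.2
  exact averaging_principle f h.1 (symp_injective h) K hK hid μ hμ0 S hS hμS hM

/-- The case `n = 0`. -/
theorem isotopic_zero {f : V 0 → V 0} : SmoothlyIsotopic 0 f := by
  refine ⟨fun p => p.2, fun p => p.2, contDiff_snd, contDiff_snd, ?_, ?_, ?_, ∅, isCompact_empty,
    ?_⟩
  · intro t _ x
    exact ⟨rfl, rfl⟩
  · intro x
    rfl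
  · intro x
    exact Subsingleton.elim _ _
  · intro t _ x _
    rfl

/-- Normalised Lebesgue measure on the Euclidean unit ball. -/
noncomputable def ballMeasure (n : ℕ) : Measure (V n) :=
  (volume (ubl n))⁻¹ • volume.restrict (ubl n)

theorem closed_ubl_compact (n : ℕ) : IsCompact {v : V n | nsq v ≤ 1} := by
  refine Metric.isCompact_of_isClosed_isBounded ?_ ?_
  · exact isClosed_le continuous_nsq continuous_const
  · rw [isBounded_iff_forall_norm_le]
    refine ⟨1, fun x hx => ?_⟩
    have hx' : nsq x ≤ 1 := hx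
    rw [norm_prod_le_iff]
    constructor
    · rw [pi_norm_le_iff_of_nonneg one_pos.le]
      intro i
      have h1 : x.1 i ^ 2 + x.2 i ^ 2 ≤ nsq x :=
        Finset.single_le_sum (f := fun j => x.1 j ^ 2 + x.2 j ^ 2)
          (fun j _ => by positivity) (Finset.mem_univ i)
      rw [Real.norm_eq_abs]
      exact abs_le_one_iff_mul_self_le_one.mpr (by nlinarith [sq_nonneg (x.2 i)])
    · rw [pi_norm_le_iff_of_nonneg one_pos.le]
      intro i
      have h1 : x.1 i ^ 2 + x.2 i ^ 2 ≤ nsq x :=
        Finset.single_le_sum (f := fun j => x.1 j ^ 2 + x.2 j ^ 2)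
          (fun j _ => by positivity) (Finset.mem_univ i)
      rw [Real.norm_eq_abs]
      exact abs_le_one_iff_mul_self_le_one.mpr (by nlinarith [sq_nonneg (x.1 i)])

theorem volume_ubl_pos (n : ℕ) : 0 < volume (ubl n) := by
  have := haarV n
  refine (isOpen_ubl n).measure_pos volume ⟨0, ?_⟩
  show nsq (0 : V n) < 1
  simp [nsq]

theorem volume_ubl_lt_top (n : ℕ) : volume (ubl n) < ⊤ := by
  have := haarV n
  refine (measure_mono ?_).trans_lt (closed_ubl_compact n).measure_lt_top
  intro x hx
  exact le_of_lt (show nsq x < 1 from hx)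

instance (n : ℕ) : IsProbabilityMeasure (ballMeasure n) := by
  constructor
  simp only [ballMeasure, Measure.smul_apply, Measure.restrict_apply_univ, smul_eq_mul]
  exact ENNReal.inv_mul_cancel (volume_ubl_pos n).ne' (volume_ubl_lt_top n).ne

theorem ballMeasure_compl (n : ℕ) : ballMeasure n {v : V n | nsq v ≤ 1}ᶜ = 0 := by
  simp only [ballMeasure, Measure.smul_apply, smul_eq_mul]
  rw [Measure.restrict_apply (closed_ubl_compact n).isClosed.measurableSet.compl]
  have : {v : V n | nsq v ≤ 1}ᶜ ∩ ubl n = ∅ := by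
    ext x
    simp only [mem_inter_iff, mem_compl_iff, mem_empty_iff_false, iff_false, not_and]
    intro h1 h2
    exact h1 (le_of_lt (show nsq x < 1 from h2))
  rw [this]
  simp

theorem ballMeasure_singleton (l : ℕ) (x : V (l + 1)) : ballMeasure (l + 1) {x} = 0 := by
  simp only [ballMeasure, Measure.smul_apply, smul_eq_mul]
  have hns : NullSingletonClass (volume : Measure (Fin (l + 1) → ℝ)) := inferInstance
  have hns' : NullSingletonClass (volume : Measure (V (l + 1))) :=
    Measure.prod.instNullSingletonClass_fst (μ := (volume : Measure (Fin (l + 1) → ℝ)))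
      (ν := (volume : Measure (Fin (l + 1) → ℝ)))
  have h1 : (volume : Measure (V (l + 1))) {x} = 0 := measure_singleton x
  have h2 : volume.restrict (ubl (l + 1)) {x} = 0 :=
    le_antisymm ((Measure.restrict_le_self _).trans h1.le) zero_le
  rw [h2, mul_zero]

/-- If the mean derivative over every ball is injective then the map is isotopic to the
identity. -/
theorem isotopic_of_ball_averages {f g : V n → V n} (h : CompactSymp n f g)
    (hM : 0 < n → ∀ x, ∀ r > (0 : ℝ), ∀ v,
      ∫ y in ubl n, fderiv ℝ f (x + r • y) v = 0 → v = 0) : SmoothlyIsotopic n f := by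
  rcases n with _ | l
  · exact isotopic_zero
  · refine isotopic_of_averages h (ballMeasure (l + 1)) (ballMeasure_singleton l) _
      (closed_ubl_compact (l + 1)) (ballMeasure_compl (l + 1)) ?_
    intro x r hr v h0
    apply hM (Nat.succ_pos l) x r hr v
    unfold ballMeasure at h0
    rw [integral_smul_measure, smul_eq_zero] at h0
    rcases h0 with h0 | h0
    · exfalso
      have h1 := volume_ubl_pos (l + 1)
      have h2 := volume_ubl_lt_top (l + 1)
      rw [ENNReal.toReal_inv, inv_eq_zero, ENNReal.toReal_eq_zero_iff] at h0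
      rcases h0 with h0 | h0
      · exact h1.ne' h0
      · exact h2.ne h0
    · exact h0

end Pool.Agent.SAV
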