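import Mathlib
import Pool.Agent.SAV.Defs

/-!
The Lipschitz gap and the flatness criterion.
-/

set_option autoImplicit false

open Set Filter Topology Metric MeasureTheory

namespace Pool.Agent.SAV

/-- The Euclidean norm. -/
noncomputable def len {n : ℕ} (v : V n) : ℝ := √(nsq v)

/-- The rescaled map in isometric coordinates. -/
noncomputable def resc {l : ℕ} (f : V (l + 1) → V (l + 1)) (x : V (l + 1)) (r : ℝ)
    (P : (Fin (2 * l + 1 + 1) → ℝ) ≃L[ℝ] V (l + 1)) (z : Fin (2 * l + 1 + 1) → ℝ) : W (l + 1) :=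
  r⁻¹ • tau (l + 1) (f (x + r • P z))

theorem resc_contDiff {l : ℕ} (f : V (l + 1) → V (l + 1)) (hf : ContDiff ℝ 1 f) (x : V (l + 1))
    (r : ℝ) (P : (Fin (2 * l + 1 + 1) → ℝ) ≃L[ℝ] V (l + 1)) : ContDiff ℝ 1 (resc f x r P) := by
  unfold resc
  have h1 : ContDiff ℝ 1 fun z => x + r • P z :=
    contDiff_const.add (P.contDiff.const_smul r)
  exact ((tau (l + 1)).contDiff.comp (hf.comp h1)).const_smul _

theorem resc_fderiv {l : ℕ} (f : V (l + 1) → V (l + 1)) (hf : ContDiff ℝ 1 f) (x : V (l + 1))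
    (r : ℝ) (hr : 0 < r) (P : (Fin (2 * l + 1 + 1) → ℝ) ≃L[ℝ] V (l + 1))
    (z u : Fin (2 * l + 1 + 1) → ℝ) :
    fderiv ℝ (resc f x r P) z u = tau (l + 1) (fderiv ℝ f (x + r • P z) (P u)) := by
  have h1 : HasFDerivAt (fun z => x + r • P z)
      (r • (P : (Fin (2 * l + 1 + 1) → ℝ) →L[ℝ] V (l + 1))) z :=
    (P.hasFDerivAt.const_smul r).const_add x
  have h2 : HasFDerivAt f (fderiv ℝ f (x + r • P z)) (x + r • P z) :=
    (hf.differentiable one_ne_zero _).hasFDerivAt
  have h3 : HasFDerivAt (resc f x r P) (r⁻¹ • ((tau (l + 1) : V (l + 1) →L[ℝ] W (l + 1)).comp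
      ((fderiv ℝ f (x + r • P z)).comp
        (r • (P : (Fin (2 * l + 1 + 1) → ℝ) →L[ℝ] V (l + 1)))))) z := by
    have h4 := ((tau (l + 1)).hasFDerivAt.comp z (h2.comp z h1)).const_smul (r⁻¹)
    exact h4
  rw [h3.fderiv]
  simp only [smul_apply, ContinuousLinearMap.comp_apply, ContinuousLinearEquiv.coe_coe, map_smul]
  rw [smul_smul, inv_mul_cancel₀ hr.ne', one_smul]

/-- From the vanishing of a ball average to the vanishing in isometric coordinates. -/
theorem resc_integral_zero {l : ℕ} (f : V (l + 1) → V (l + 1)) (hf : ContDiff ℝ 1 f)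
    (x : V (l + 1)) (r : ℝ) (hr : 0 < r) (P : (Fin (2 * l + 1 + 1) → ℝ) ≃L[ℝ] V (l + 1))
    (hP : ∀ x, nsq (P x) = ∑ i, x i ^ 2) (v : V (l + 1)) (c : ℝ) (hc : c ≠ 0)
    (hv : v = c • P (Pi.single 0 1))
    (h0 : ∫ y in ubl (l + 1), fderiv ℝ f (x + r • y) v = 0) :
    ∫ z in eball (2 * l + 1 + 1), fderiv ℝ (resc f x r P) z (Pi.single 0 1) = 0 := by
  have h1 := integral_ubl_eq_zero l P hP (fun y => fderiv ℝ f (x + r • y) v) h0
  have hfc : Continuous (fderiv ℝ f) := hf.continuous_fderiv one_ne_zero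
  have hi : IntegrableOn (fun z => fderiv ℝ f (x + r • P z) (P (Pi.single 0 1)))
      (eball (2 * l + 1 + 1)) := by
    have hc : Continuous fun z => fderiv ℝ f (x + r • P z) (P (Pi.single 0 1)) :=
      (hfc.comp (continuous_const.add (P.continuous.const_smul r))).clm_apply continuous_const
    exact (hc.continuousOn.integrableOn_compact (isCompact_cball _)).mono_set
      (eball_subset_cball _)
  have h2 : ∫ z in eball (2 * l + 1 + 1), fderiv ℝ f (x + r • P z) (P (Pi.single 0 1)) = 0 := by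
    have h3 : ∀ z, fderiv ℝ f (x + r • P z) v =
        c • fderiv ℝ f (x + r • P z) (P (Pi.single 0 1)) := by
      intro z
      rw [hv, map_smul]
    simp_rw [h3] at h1
    rw [integral_smul, smul_eq_zero] at h1
    exact h1.resolve_left hc
  simp_rw [resc_fderiv f hf x r hr P]
  have h4 := ContinuousLinearMap.integral_comp_comm
    (tau (l + 1) : V (l + 1) →L[ℝ] W (l + 1)) hi
  simp only [ContinuousLinearEquiv.coe_coe] at h4
  rw [h4, h2, map_zero]

/-- **Lipschitz gap, analytic part.** -/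
theorem lipschitz_ball_average {l : ℕ} {f g : V (l + 1) → V (l + 1)}
    (h : CompactSymp (l + 1) f g) (L : ℝ) (hL : 0 ≤ L)
    (hLip : ∀ x v, nsq (fderiv ℝ f x v) ≤ L ^ 2 * nsq v)
    (hgap : L ^ 4 * (1 - bet (l + 1)) < 1 + bet (l + 1)) (x : V (l + 1)) (r : ℝ) (hr : 0 < r)
    (v : V (l + 1)) (h0 : ∫ y in ubl (l + 1), fderiv ℝ f (x + r • y) v = 0) : v = 0 := by
  by_contra hv
  have h1top : (1 : WithTop ℕ∞) ≤ ((⊤ : ℕ∞) : WithTop ℕ∞) := by
    exact_mod_cast (le_top : (1 : ℕ∞) ≤ ⊤)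
  obtain ⟨hf, hg, hgf, hfg, hsymp, -⟩ := h
  have hf1 : ContDiff ℝ 1 f := hf.of_le h1top
  have hg1 : ContDiff ℝ 1 g := hg.of_le h1top
  obtain ⟨P, hP, c, hc, hvP⟩ := exists_frame l v hv
  have hz := resc_integral_zero f hf1 x r hr P hP v c hc hvP h0
  -- the derivative of the inverse
  have hLipg : ∀ y w, nsq (fderiv ℝ g y w) ≤ L ^ 2 * nsq w := by
    intro y w
    have h2 : HasFDerivAt f (fderiv ℝ f (g y)) (g y) :=
      (hf1.differentiable one_ne_zero _).hasFDerivAt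
    have h3 : HasFDerivAt g (fderiv ℝ g y) y := (hg1.differentiable one_ne_zero _).hasFDerivAt
    have h4 := h2.comp y h3
    have h5 : f ∘ g = id := by
      funext z
      exact hfg z
    rw [h5] at h4
    have h6 : (fderiv ℝ f (g y)).comp (fderiv ℝ g y) = ContinuousLinearMap.id ℝ _ :=
      h4.unique (hasFDerivAt_id y)
    have h7 : fderiv ℝ f (g y) (fderiv ℝ g y w) = w := by
      have : ((fderiv ℝ f (g y)).comp (fderiv ℝ g y)) w = w := by
        rw [h6]
        rfl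
      exact this
    have h8 := symplectic_lower (fderiv ℝ f (g y)) (hsymp (g y)) (L ^ 2) (hLip (g y))
      (fderiv ℝ g y w)
    rw [h7] at h8
    exact h8
  have hLpos : 0 < L ^ 2 := by
    by_contra hneg
    have h2 : L ^ 2 = 0 := le_antisymm (not_lt.mp hneg) (sq_nonneg L)
    have h3 := symplectic_lower (fderiv ℝ f x) (hsymp x) (L ^ 2) (hLip x) v
    rw [h2, zero_mul] at h3
    have := nsq_pos hv
    linarith
  have hsumP : ∀ a b, ∑ i, (a i - b i) ^ 2 = nsq (P a - P b) := by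
    intro a b
    rw [← map_sub, hP]
    rfl
  have hdist : ∀ a b, ‖resc f x r P a - resc f x r P b‖ ^ 2 =
      (r⁻¹) ^ 2 * nsq (f (x + r • P a) - f (x + r • P b)) := by
    intro a b
    unfold resc
    rw [← smul_sub, norm_smul, mul_pow, ← map_sub, tau_norm_sq, Real.norm_eq_abs, sq_abs]
  have hsc : ∀ a b, (x + r • P a) - (x + r • P b) = r • (P a - P b) := by
    intro a b
    rw [smul_sub]
    abel
  refine mean_derivative_ne_zero (resc f x r P) (resc_contDiff f hf1 x r P) (L ^ 2) hLpos ?_ ?_ ?_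
    hz
  · intro a b
    rw [hdist, hsumP]
    have h2 := nsq_lipschitz f hf1 L hL hLip (x + r • P a) (x + r • P b)
    rw [hsc, nsq_smul] at h2
    calc (r⁻¹) ^ 2 * nsq (f (x + r • P a) - f (x + r • P b)) ≤
          (r⁻¹) ^ 2 * (L ^ 2 * (r ^ 2 * nsq (P a - P b))) :=
          mul_le_mul_of_nonneg_left h2 (by positivity)
      _ = L ^ 2 * nsq (P a - P b) := by field_simp
  · intro a b
    rw [hdist, hsumP]
    have h2 := nsq_lipschitz g hg1 L hL hLipg (f (x + r • P a)) (f (x + r • P b))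
    rw [hgf, hgf, hsc, nsq_smul] at h2
    have h3 : nsq (P a - P b) ≤ L ^ 2 * ((r⁻¹) ^ 2 * nsq (f (x + r • P a) - f (x + r • P b))) := by
      have h4 : nsq (P a - P b) = (r⁻¹) ^ 2 * (r ^ 2 * nsq (P a - P b)) := by field_simp
      rw [h4]
      calc (r⁻¹) ^ 2 * (r ^ 2 * nsq (P a - P b)) ≤
            (r⁻¹) ^ 2 * (L ^ 2 * nsq (f (x + r • P a) - f (x + r • P b))) :=
            mul_le_mul_of_nonneg_left h2 (by positivity)
        _ = _ := by ring
    rw [inv_mul_le_iff₀ hLpos]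
    exact h3
  · have hv1 := vol_pos (2 * l + 1)
    rw [vol_ratio l]
    have h2 : (L ^ 2) ^ 2 = L ^ 4 := by ring
    rw [h2]
    have h3 : L ^ 4 * (2 * vol (2 * l + 1) - 2 * vol (2 * l + 1) * bet (l + 1)) =
        2 * vol (2 * l + 1) * (L ^ 4 * (1 - bet (l + 1))) := by ring
    have h4 : 2 * vol (2 * l + 1) + 2 * vol (2 * l + 1) * bet (l + 1) =
        2 * vol (2 * l + 1) * (1 + bet (l + 1)) := by ring
    rw [h3, h4]
    exact mul_lt_mul_of_pos_left hgap (by positivity)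

theorem len_nonneg {n : ℕ} (v : V n) : 0 ≤ len v := Real.sqrt_nonneg _

theorem len_eq_norm {n : ℕ} (v : V n) : len v = ‖tau n v‖ := by
  unfold len
  rw [← tau_norm_sq, Real.sqrt_sq (norm_nonneg _)]

/-- **Flatness criterion, analytic part.** -/
theorem flat_ball_average {l : ℕ} (f : V (l + 1) → V (l + 1)) (hf1 : ContDiff ℝ 1 f)
    (x : V (l + 1)) (r : ℝ) (hr : 0 < r)
    (hflat : ∃ (a : V (l + 1)) (Q : V (l + 1) →ₗ[ℝ] V (l + 1)) (δ : ℝ),
      ∀ u, nsq u = 1 → len (f (x + r • u) - a - r • Q u) ≤ δ * r ∧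
        δ < bet (l + 1) * len (Q u))
    (v : V (l + 1)) (h0 : ∫ y in ubl (l + 1), fderiv ℝ f (x + r • y) v = 0) : v = 0 := by
  by_contra hv
  obtain ⟨a, Q, δ, hQ⟩ := hflat
  obtain ⟨P, hP, c, hc, hvP⟩ := exists_frame l v hv
  have hz := resc_integral_zero f hf1 x r hr P hP v c hc hvP h0
  let Q' : V (l + 1) →L[ℝ] V (l + 1) := LinearMap.toContinuousLinearMap Q
  let R : (Fin (2 * l + 1 + 1) → ℝ) →L[ℝ] W (l + 1) :=
    (tau (l + 1) : V (l + 1) →L[ℝ] W (l + 1)).comp
      (Q'.comp (P : (Fin (2 * l + 1 + 1) → ℝ) →L[ℝ] V (l + 1)))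
  have hR : ∀ z, R z = tau (l + 1) (Q (P z)) := fun z => rfl
  refine mean_derivative_ne_zero_of_flat (resc f x r P) (resc_contDiff f hf1 x r P)
    (r⁻¹ • tau (l + 1) a) R δ ?_ ?_ (vol_pos _).le hz
  · intro z hz1
    have h1 := (hQ (P z) (by rw [hP, hz1])).1
    rw [len_eq_norm] at h1
    have h2 : resc f x r P z - r⁻¹ • tau (l + 1) a - R z =
        r⁻¹ • tau (l + 1) (f (x + r • P z) - a - r • Q (P z)) := by
      unfold resc
      rw [hR, map_sub, map_sub, map_smul, smul_sub, smul_sub, smul_smul,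
        inv_mul_cancel₀ hr.ne', one_smul]
    rw [h2, norm_smul, norm_inv, Real.norm_of_nonneg hr.le, inv_mul_le_iff₀ hr, mul_comm r δ]
    exact h1
  · have hsum : ∑ i, (Pi.single 0 1 : Fin (2 * l + 1 + 1) → ℝ) i ^ 2 = 1 := by
      rw [Finset.sum_eq_single 0]
      · simp
      · intro j _ hj
        rw [Pi.single_eq_of_ne hj]
        simp
      · intro h
        exact absurd (Finset.mem_univ _) h
    have h1 := (hQ (P (Pi.single 0 1)) (by rw [hP, hsum])).2
    rw [hR, ← len_eq_norm, vol_ratio l]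
    have hv1 := vol_pos (2 * l + 1)
    calc 2 * vol (2 * l + 1) * δ < 2 * vol (2 * l + 1) * (bet (l + 1) *
          len (Q (P (Pi.single 0 1)))) := mul_lt_mul_of_pos_left h1 (by positivity)
      _ = _ := by ring

end Pool.Agent.SAV
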